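import Mathlib
import Pool.Agent.Lib.MP_17a322_nt.VA.AV

/-!
Elliptic curves and their products as abelian varieties in projective space (`AV`): definitions.

`crv a b` is the curve `y² = x³ + a x + b`, `cub a b` the equation of the plane cubic, `EP a b L` its
points over the field `L` (Mathlib's group), `co P` the coordinates of the point `P`.
`sf a b p q i j` are the nine forms of bidegree `(2, 2)` proportional to `X i (P + Q) * X j (P - Q)`.
`pe`, `sg`, `sgh`, `pI`: the Segre embedding of a product.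
-/

set_option autoImplicit false

universe u

namespace Pool.Agent.Lib.MP_17a322_nt.EA

open MvPolynomial
open Pool.Agent.Lib.MP_17a322_nt.VA

/-- The elliptic curve `y² = x³ + a x + b`. -/
def crv {R : Type u} (a b : R) [Zero R] : WeierstrassCurve R := ⟨0, 0, 0, a, b⟩

/-- The equation of the plane cubic `y² z = x³ + a x z² + b z³`. -/
noncomputable def cub {R : Type u} [CommRing R] (a b : R) : MvPolynomial (Fin (2 + 1)) R :=
  X 1 ^ 2 * X 2 - X 0 ^ 3 - C a * X 0 * X 2 ^ 2 - C b * X 2 ^ 3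

/-- The ideal of the cubic. -/
noncomputable def cubI {K : Type u} [Field K] (a b : K) : Ideal (MvPolynomial (Fin (2 + 1)) K) :=
  Ideal.span {cub a b}

/-- The points of the elliptic curve over the extension field `L`. -/
abbrev EP {K : Type u} [Field K] (a b : K) (L : Type u) [Field L] [Algebra K L] : Type u :=
  WeierstrassCurve.Affine.Point ((crv a b).baseChange L)

noncomputable instance {K : Type u} [Field K] (a b : K) (L : Type u) [Field L] [Algebra K L] :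
    AddCommGroup (EP a b L) := by
  classical exact inferInstance

/-- The coordinates `(0, 1, 0)` or `(x, y, 1)` of a point. -/
def co {K : Type u} [Field K] {a b : K} {L : Type u} [Field L] [Algebra K L] :
    EP a b L → Fin (2 + 1) → L
  | .zero => ![0, 1, 0]
  | .some x y _ => ![x, y, 1]

/-- The forms of bidegree `(2, 2)` for the sum and the difference: `sf a b P Q i j` is proportional to
`X i (P + Q) * X j (P - Q)`. -/
def sf {R : Type u} [CommRing R] (a b : R) (p q : Fin (2 + 1) → R) : Fin (2 + 1) → Fin (2 + 1) → R :=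
  ![![p 1 ^ 2 * q 0 ^ 2 - p 0 ^ 2 * q 1 ^ 2 - a * p 0 * q 0 * (p 0 * q 2 - q 0 * p 2) -
        3 * b * (p 0 ^ 2 * q 2 ^ 2 - q 0 ^ 2 * p 2 ^ 2) + a ^ 2 * p 2 * q 2 * (p 0 * q 2 - q 0 * p 2),
      -(p 1 * q 1 * (p 0 * q 1 + q 0 * p 1)) + a * (p 0 ^ 2 * q 1 * q 2 + q 0 ^ 2 * p 1 * p 2) +
        2 * a * p 0 * q 0 * (p 1 * q 2 + q 1 * p 2) + 3 * b * (p 0 * p 1 * q 2 ^ 2 + q 0 * q 1 * p 2 ^ 2) +
        6 * b * p 2 * q 2 * (p 0 * q 1 + q 0 * p 1) - a ^ 2 * p 2 * q 2 * (p 1 * q 2 + q 1 * p 2),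
      p 1 ^ 2 * q 0 * q 2 - q 1 ^ 2 * p 0 * p 2 + a * (p 0 ^ 2 * q 2 ^ 2 - q 0 ^ 2 * p 2 ^ 2) +
        3 * b * p 2 * q 2 * (p 0 * q 2 - q 0 * p 2) - 2 * p 1 * q 1 * (p 0 * q 2 - q 0 * p 2)],
    ![p 1 * q 1 * (q 0 * p 1 - p 0 * q 1) + a * (q 0 ^ 2 * p 1 * p 2 - p 0 ^ 2 * q 1 * q 2) +
        2 * a * p 0 * q 0 * (p 1 * q 2 - q 1 * p 2) + 3 * b * (p 0 * p 1 * q 2 ^ 2 - q 0 * q 1 * p 2 ^ 2) +
        6 * b * p 2 * q 2 * (q 0 * p 1 - p 0 * q 1) - a ^ 2 * p 2 * q 2 * (p 1 * q 2 - q 1 * p 2),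
      -(p 1 ^ 2 * q 1 ^ 2) - 3 * a * p 0 ^ 2 * q 0 ^ 2 - 9 * b * p 0 * q 0 * (p 0 * q 2 + q 0 * p 2) +
        a ^ 2 * (p 0 ^ 2 * q 2 ^ 2 + 4 * p 0 * q 0 * p 2 * q 2 + q 0 ^ 2 * p 2 ^ 2) +
        3 * a * b * p 2 * q 2 * (p 0 * q 2 + q 0 * p 2) + (9 * b ^ 2 + a ^ 3) * p 2 ^ 2 * q 2 ^ 2,
      p 1 * q 1 * (p 1 * q 2 - q 1 * p 2) + 3 * p 0 * q 0 * (p 0 * q 1 - q 0 * p 1) +
        2 * a * p 2 * q 2 * (p 0 * q 1 - q 0 * p 1) - a * (p 0 * p 1 * q 2 ^ 2 - q 0 * q 1 * p 2 ^ 2) -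
        3 * b * p 2 * q 2 * (p 1 * q 2 - q 1 * p 2)],
    ![p 1 ^ 2 * q 0 * q 2 - q 1 ^ 2 * p 0 * p 2 + a * (p 0 ^ 2 * q 2 ^ 2 - q 0 ^ 2 * p 2 ^ 2) +
        3 * b * p 2 * q 2 * (p 0 * q 2 - q 0 * p 2) + 2 * p 1 * q 1 * (p 0 * q 2 - q 0 * p 2),
      -(p 1 * q 1 * (p 1 * q 2 + q 1 * p 2)) - 3 * p 0 * q 0 * (p 0 * q 1 + q 0 * p 1) -
        2 * a * p 2 * q 2 * (p 0 * q 1 + q 0 * p 1) - a * (p 0 * p 1 * q 2 ^ 2 + q 0 * q 1 * p 2 ^ 2) -
        3 * b * p 2 * q 2 * (p 1 * q 2 + q 1 * p 2),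
      p 1 ^ 2 * q 2 ^ 2 - q 1 ^ 2 * p 2 ^ 2 - a * p 2 * q 2 * (p 0 * q 2 - q 0 * p 2) -
        3 * p 0 * q 0 * (p 0 * q 2 - q 0 * p 2)]]

/-- The polynomials `sf`. -/
noncomputable def sP {K : Type u} [Field K] (a b : K) (i j : Fin (2 + 1)) :
    MvPolynomial (Fin (2 + 1) ⊕ Fin (2 + 1)) K :=
  sf (C a) (C b) (fun k => X (Sum.inl k)) (fun k => X (Sum.inr k)) i j

/-- The pairs of indices. -/
def pe (N M : ℕ) : Fin (N + 1) × Fin (M + 1) ≃ Fin (N * M + N + M + 1) :=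
  finProdFinEquiv.trans (finCongr (by ring))

/-- The Segre embedding. -/
def sg {R : Type u} [Mul R] {N M : ℕ} (x : Fin (N + 1) → R) (y : Fin (M + 1) → R) :
    Fin (N * M + N + M + 1) → R :=
  fun k => x ((pe N M).symm k).1 * y ((pe N M).symm k).2

/-- The Segre homomorphism of rings. -/
noncomputable def sgh (K : Type u) [CommRing K] (N M : ℕ) :
    MvPolynomial (Fin (N * M + N + M + 1)) K →ₐ[K] MvPolynomial (Fin (N + 1) ⊕ Fin (M + 1)) K :=
  aeval (sg (fun i => X (Sum.inl i)) (fun j => X (Sum.inr j)))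

/-- The ideal of the product in the ring of polynomials in both sets of variables. -/
noncomputable def JJ {K : Type u} [CommRing K] {N M : ℕ} (I : Ideal (MvPolynomial (Fin (N + 1)) K))
    (J : Ideal (MvPolynomial (Fin (M + 1)) K)) : Ideal (MvPolynomial (Fin (N + 1) ⊕ Fin (M + 1)) K) :=
  I.map (rename Sum.inl) ⊔ J.map (rename Sum.inr)

/-- The ideal of the product in the Segre embedding. -/
noncomputable def pI {K : Type u} [CommRing K] {N M : ℕ} (I : Ideal (MvPolynomial (Fin (N + 1)) K))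
    (J : Ideal (MvPolynomial (Fin (M + 1)) K)) : Ideal (MvPolynomial (Fin (N * M + N + M + 1)) K) :=
  (JJ I J).comap (sgh K N M)

end Pool.Agent.Lib.MP_17a322_nt.EA
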