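import Pool.Agent.Lib.MP_17a322_ntEA.Pr

/-!
The product of two elliptic curves as an abelian variety in `ℙ⁸`.
-/

set_option autoImplicit false

universe u

namespace Pool.Agent.Lib.MP_17a322_nt.EA

open Pool.Agent.Lib.MP_17a322_nt.VA

/-- The product of the elliptic curves `y² = x³ + a x + b` and `y² = x³ + a' x + b'` in the Segre
embedding: an abelian variety `A` in `ℙ⁸`, with an isomorphism of groups between the pairs of points
(with Mathlib's group law) and the points of `A`, over every extension field; the coordinates of the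
image of `(P, P')` are proportional to the products of the coordinates of `P` and `P'`. -/
theorem exists_two {K : Type u} [Field K] {a b a' b' : K} (h : (crv a b).Δ ≠ 0)
    (h' : (crv a' b').Δ ≠ 0) :
    ∃ (A : AV K 8)
      (e : ∀ (L : Type u) [Field L] [Algebra K L], EP a b L × EP a' b' L ≃+ A.Pts L),
      ∀ (L : Type u) [Field L] [Algebra K L] (P : EP a b L × EP a' b' L), ∃ c : L, c ≠ 0 ∧
        ∀ k, A.x (e L P) k = c * sg (N := 2) (M := 2) (co P.1) (co P.2) k := by
  refine ⟨prodAV (ecAV h) (ecAV h'), fun L _ _ =>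
    ((ecE h L).prodCongr (ecE h' L)).trans (prE (ecAV h) (ecAV h') L), fun L _ _ P => ?_⟩
  obtain ⟨c, hc, e⟩ := prE_x (ecAV h) (ecAV h') L (ecE h L P.1, ecE h' L P.2)
  obtain ⟨c1, h1, e1⟩ := ecE_x h L P.1
  obtain ⟨c2, h2, e2⟩ := ecE_x h' L P.2
  refine ⟨c * c1 * c2, mul_ne_zero (mul_ne_zero hc h1) h2, fun k => ?_⟩
  refine (e k).trans ?_
  simp only [sg]
  rw [e1, e2]
  ring

end Pool.Agent.Lib.MP_17a322_nt.EA
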