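import Pool.Agent.Lib.MP_17a322_ntEA.Base

/-!
# A1: the ideal of the plane cubic is prime over every field

The cubic may be singular. `cub a b = y² z - x³ - a x z² - b z³` in `K[x, y, z]` is irreducible:
as a polynomial in `x` over `K[y, z]` (Mathlib: `MvPolynomial.finSuccEquiv K 2`, which sends `X 0` to
`Polynomial.X` and `X i.succ` to `Polynomial.C (X i)`) it is `- x³ - (a z²) x + (y² z - b z³)`, with unit
leading coefficient, and Eisenstein's criterion (`Polynomial.irreducible_of_eisenstein_criterion`) applies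
with the prime ideal `(z)` of `K[y, z]` (`Ideal.span {X 1}`; `MvPolynomial.prime_X`, or the kernel of an
evaluation): the coefficients of degree 1, 2 and 0 lie in `(z)`, and `y² z - b z³` does not lie in `(z²)`,
since `y² - b z²` is not divisible by `z` (put `z = 0`). `MvPolynomial (Fin 3) K` is a unique factorization
domain: irreducible elements are prime (`Irreducible.prime`), and `Ideal.span_singleton_prime`.

`cubI_map`: `Ideal.map_span`, `Set.image_singleton`, and `simp [cub]`.
`cubI_gprime`: rewrite with `cubI_map` and apply `cubI_prime` over `L`.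
-/

set_option autoImplicit false

universe u

namespace Pool.Agent.Lib.MP_17a322_nt.EA

open MvPolynomial
open Pool.Agent.Lib.MP_17a322_nt.VA

private theorem A1_irr {R : Type u} [CommRing R] [IsDomain R] (p q z : R) (hz : Prime z)
    (hp : z ∣ p) (hq : z ∣ q) (hq2 : ¬ z ^ 2 ∣ q) :
    Irreducible (Polynomial.X ^ 3 + (Polynomial.C p * Polynomial.X + Polynomial.C q) :
      Polynomial R) := by
  have hdeg : (Polynomial.C p * Polynomial.X + Polynomial.C q : Polynomial R).degree < (3 : ℕ) :=
    lt_of_le_of_lt Polynomial.degree_linear_le (by norm_num)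
  have hmon : (Polynomial.X ^ 3 + (Polynomial.C p * Polynomial.X + Polynomial.C q) :
      Polynomial R).Monic := Polynomial.monic_X_pow_add hdeg
  have hd : (Polynomial.X ^ 3 + (Polynomial.C p * Polynomial.X + Polynomial.C q) :
      Polynomial R).degree = 3 := by
    rw [Polynomial.degree_add_eq_left_of_degree_lt, Polynomial.degree_X_pow]
    · rfl
    · rw [Polynomial.degree_X_pow]
      exact hdeg
  have hP : (Ideal.span {z}).IsPrime := (Ideal.span_singleton_prime hz.ne_zero).2 hz
  refine Polynomial.irreducible_of_eisenstein_criterion hP ?_ ?_ ?_ ?_ ?_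
  · rw [hmon.leadingCoeff]
    exact fun h => hP.ne_top ((Ideal.eq_top_iff_one _).2 h)
  · intro n hn
    rw [hd] at hn
    have hn' : n < 3 := by exact_mod_cast hn
    rw [Ideal.mem_span_singleton]
    interval_cases n
    · simpa using hq
    · simpa [Polynomial.coeff_X_pow, Polynomial.coeff_C] using hp
    · simp
  · rw [hd]
    norm_num
  · rw [Ideal.span_singleton_pow, Ideal.mem_span_singleton]
    simpa using hq2
  · exact hmon.isPrimitive

private theorem A1_eq {K : Type u} [Field K] (a b : K) :
    finSuccEquiv K 2 (cub a b) = -(Polynomial.X ^ 3 +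
      (Polynomial.C (C a * X 1 ^ 2 : MvPolynomial (Fin 2) K) * Polynomial.X +
        Polynomial.C (C b * X 1 ^ 3 - X 0 ^ 2 * X 1 : MvPolynomial (Fin 2) K))) := by
  have h0 : finSuccEquiv K 2 (X 0) = Polynomial.X := finSuccEquiv_X_zero
  have h1 : finSuccEquiv K 2 (X 1) = Polynomial.C (X 0) := finSuccEquiv_X_succ (j := 0)
  have h2 : finSuccEquiv K 2 (X 2) = Polynomial.C (X 1) := finSuccEquiv_X_succ (j := 1)
  have hC : ∀ c : K, finSuccEquiv K 2 (C c) = Polynomial.C (C c) := fun c => by
    simp [finSuccEquiv_apply]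
  unfold cub
  simp only [map_sub, map_mul, map_pow, h0, h1, h2, hC]
  ring

private theorem A1_prime {K : Type u} [Field K] (a b : K) : Prime (cub a b) := by
  have hz : Prime (X 1 : MvPolynomial (Fin 2) K) := X_prime
  have h1 := A1_irr (C a * X 1 ^ 2 : MvPolynomial (Fin 2) K)
    (C b * X 1 ^ 3 - X 0 ^ 2 * X 1 : MvPolynomial (Fin 2) K) (X 1) hz
    ⟨C a * X 1, by ring⟩ ⟨C b * X 1 ^ 2 - X 0 ^ 2, by ring⟩ (by
      rintro ⟨g, hg⟩
      have h2 : (C b * X 1 ^ 2 - X 0 ^ 2 : MvPolynomial (Fin 2) K) = X 1 * g := by
        apply mul_left_cancel₀ hz.ne_zero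
        linear_combination hg
      have h3 := congrArg (eval (![1, 0] : Fin 2 → K)) h2
      simp at h3)
  have h2 : Irreducible (finSuccEquiv K 2 (cub a b)) := by
    rw [A1_eq]
    exact (Associated.irreducible_iff ⟨-1, by simp⟩).2 h1
  have h3 : Irreducible (cub a b) := (MulEquiv.irreducible_iff (finSuccEquiv K 2)).1 h2
  exact h3.prime

theorem cubI_prime {K : Type u} [Field K] (a b : K) : (cubI a b).IsPrime :=
  (Ideal.span_singleton_prime (A1_prime a b).ne_zero).2 (A1_prime a b)

theorem cubI_map {K : Type u} [Field K] (a b : K) (L : Type u) [Field L] [Algebra K L] :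
    (cubI a b).map (MvPolynomial.map (σ := Fin (2 + 1)) (algebraMap K L)) =
      cubI (algebraMap K L a) (algebraMap K L b) :=
  by
  unfold cubI
  rw [Ideal.map_span, Set.image_singleton]
  congr 2
  simp [cub]

theorem cubI_gprime {K : Type u} [Field K] (a b : K) : GPrime (cubI a b) :=
  by
  intro L _ _
  rw [cubI_map]
  exact cubI_prime _ _

end Pool.Agent.Lib.MP_17a322_nt.EA
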