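import Pool.Agent.Lib.MP_17a322_ntEA.Base

/-!
# A2: the ideal of the plane cubic is homogeneous

`cub a b` is homogeneous of degree 3. For an element `f = g * cub a b` of the ideal: either through
`Ideal.homogeneous_span` for the grading `homogeneousSubmodule (Fin 3) K` (and
`MvPolynomial.decomposition.decompose'_apply`), or directly: `g` is the sum of its homogeneous
components `g_k`, `g_k * cub` is homogeneous of degree `k + 3`, so the component of degree `d` of
`f` is `g_(d - 3) * cub` if `3 ≤ d` and `0` otherwise (`homogeneousComponent_of_mem`).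
-/

set_option autoImplicit false

universe u

namespace Pool.Agent.Lib.MP_17a322_nt.EA

open MvPolynomial
open Pool.Agent.Lib.MP_17a322_nt.VA

private theorem A2_cub {K : Type u} [Field K] (a b : K) : (cub a b).IsHomogeneous 3 := by
  unfold cub
  refine IsHomogeneous.sub (IsHomogeneous.sub (IsHomogeneous.sub ?_ ?_) ?_) ?_
  · exact ((isHomogeneous_X K 1).pow 2).mul (isHomogeneous_X K 2)
  · exact (isHomogeneous_X K 0).pow 3
  · exact ((isHomogeneous_C (Fin (2 + 1)) a).mul (isHomogeneous_X K 0)).mul ((isHomogeneous_X K 2).pow 2)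
  · exact (isHomogeneous_C (Fin (2 + 1)) b).mul ((isHomogeneous_X K 2).pow 3)

theorem cubI_hom {K : Type u} [Field K] (a b : K) : Hom (cubI a b) := by
  intro f hf d
  obtain ⟨g, rfl⟩ := Ideal.mem_span_singleton.1 hf
  rw [← sum_homogeneousComponent g, Finset.mul_sum, map_sum]
  refine Ideal.sum_mem _ fun k _ => ?_
  rw [homogeneousComponent_of_mem ((A2_cub a b).mul (homogeneousComponent_isHomogeneous k g))]
  split_ifs
  · exact Ideal.mul_mem_right _ _ (Ideal.subset_span rfl)
  · exact Ideal.zero_mem _

end Pool.Agent.Lib.MP_17a322_nt.EA
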