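import Pool.Agent.Lib.MP_17a322_ntEA.Base

/-!
# A3: the points of the cubic are the points of the elliptic curve

`co_inj`: points with proportional coordinates are equal. If `P = O` and `Q = (x, y)`: compare the
coordinate `2` (`0 = c * 1`, impossible since `c ≠ 0`); if both are affine, the coordinate `2` gives `c = 1`.

`ptOf_bij`. Injective: from `ptOf P = ptOf Q` and `ptOf_rep` (both) the coordinates are proportional.
Surjective: let `p` be a point of the cubic and `v = p.1.rep`; `(vanish_iff v).1 p.2` is the equation of the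
cubic. If `v 2 = 0`: `v 0 ^ 3 = 0`, so `v = v 1 • (0, 1, 0)` with `v 1 ≠ 0` (`rep_nonzero`) and `p = ptOf O`.
If `v 2 ≠ 0`: `x = v 0 / v 2`, `y = v 1 / v 2` satisfy `y² = x³ + a x + b`; the point `P` is
`.some x y (nonsingular_of_eq hΔ _)` and `v = v 2 • co P`. Equality of points of `Pt`: `Subtype.ext`, then
`Projectivization.mk_rep` and `Projectivization.mk_eq_mk_iff'`.
-/

set_option autoImplicit false

universe u

namespace Pool.Agent.Lib.MP_17a322_nt.EA

open MvPolynomial
open Pool.Agent.Lib.MP_17a322_nt.VA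

theorem co_inj {K : Type u} [Field K] {a b : K} {L : Type u} [Field L] [Algebra K L]
    {P Q : EP a b L} {c : L} (hc : c ≠ 0) (h : ∀ i, co P i = c * co Q i) : P = Q := by
  cases P with
  | zero =>
    cases Q with
    | zero => rfl
    | some x y hQ =>
      have h2 : (0 : L) = c * 1 := h 2
      exact absurd ((mul_one c).symm.trans h2.symm) hc
  | some x y hP =>
    cases Q with
    | zero =>
      have h2 : (1 : L) = c * 0 := h 2
      exact absurd (h2.trans (mul_zero c)) one_ne_zero
    | some x' y' hQ =>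
      have h2 : (1 : L) = c * 1 := h 2
      have h0 : x = c * x' := h 0
      have h1 : y = c * y' := h 1
      have h3 : c = 1 := (mul_one c).symm.trans h2.symm
      rw [h3, one_mul] at h0 h1
      subst h0
      subst h1
      rfl

private theorem A3_eq {K : Type u} [Field K] {a b : K} {L : Type u} [Field L] [Algebra K L]
    (P : EP a b L) (p : Pt (cubI a b) L) (c : L) (h : ∀ i, p.1.rep i = c * co P i) : ptOf P = p := by
  refine Subtype.ext ?_
  have h1 : p.1 = Projectivization.mk L p.1.rep p.1.rep_nonzero := p.1.mk_rep.symm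
  have h2 : (ptOf P).1 = Projectivization.mk L (co P) (co_ne_zero P) := rfl
  rw [h2, h1]
  symm
  rw [Projectivization.mk_eq_mk_iff']
  exact ⟨c, funext fun i => (h i).symm⟩

theorem ptOf_bij {K : Type u} [Field K] {a b : K} (hΔ : (crv a b).Δ ≠ 0) (L : Type u) [Field L]
    [Algebra K L] : Function.Bijective (ptOf : EP a b L → Pt (cubI a b) L) := by
  refine ⟨fun P Q h => ?_, fun p => ?_⟩
  · obtain ⟨c, hc, h1⟩ := ptOf_rep P
    obtain ⟨d, hd, h2⟩ := ptOf_rep Q
    rw [h] at h1
    refine co_inj (mul_ne_zero (inv_ne_zero hc) hd) fun i => ?_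
    rw [mul_assoc, ← h2 i, h1 i, inv_mul_cancel_left₀ hc]
  · obtain ⟨v, hv⟩ : ∃ v, v = p.1.rep := ⟨_, rfl⟩
    have hv0 : v ≠ 0 := by
      rw [hv]
      exact p.1.rep_nonzero
    have he : v 1 ^ 2 * v 2 = v 0 ^ 3 + algebraMap K L a * v 0 * v 2 ^ 2 +
        algebraMap K L b * v 2 ^ 3 := by
      rw [hv]
      exact (vanish_iff _).1 p.2
    by_cases h2 : v 2 = 0
    · have h0 : v 0 = 0 := by
        rw [h2] at he
        have h3 : v 0 ^ 3 = 0 := by linear_combination -he
        exact pow_eq_zero_iff (three_ne_zero) |>.1 h3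
      refine ⟨.zero, A3_eq _ p (v 1) fun i => ?_⟩
      rw [← hv]
      fin_cases i
      · show v 0 = v 1 * 0
        rw [h0, mul_zero]
      · show v 1 = v 1 * 1
        rw [mul_one]
      · show v 2 = v 1 * 0
        rw [h2, mul_zero]
    · have h3 : (v 1 / v 2) ^ 2 = (v 0 / v 2) ^ 3 + algebraMap K L a * (v 0 / v 2) +
          algebraMap K L b := by
        field_simp
        linear_combination he
      refine ⟨.some (v 0 / v 2) (v 1 / v 2) (nonsingular_of_eq hΔ h3), A3_eq _ p (v 2) fun i => ?_⟩
      rw [← hv]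
      fin_cases i
      · show v 0 = v 2 * (v 0 / v 2)
        rw [mul_div_cancel₀ _ h2]
      · show v 1 = v 2 * (v 1 / v 2)
        rw [mul_div_cancel₀ _ h2]
      · show v 2 = v 2 * 1
        rw [mul_one]

end Pool.Agent.Lib.MP_17a322_nt.EA
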