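import Pool.Agent.Lib.MP_17a322_ntEA.Base
import Pool.Agent.Lib.MP_17a322_ntEA.A3

/-!
# A4: homomorphisms of fields

`isImg_ptOf`: with `ptOf_rep` for `P` and `P'` the relation `IsImg φ (ptOf P) (ptOf P')` says that
`φ (co P i) = c * co P' i` for some `c ≠ 0`. Backwards: clear. Forwards: compare the coordinate `2`
(values `0` or `1` for both; `φ 1 = 1`, `φ 0 = 0`): if `P` is affine, so is `P'` and `c = 1`; if `P = O`,
then `P' = O` (and `co = (0, 1, 0)` for both).

`co_add`: Mathlib's homomorphism `WeierstrassCurve.Affine.Point.map (W' := crv a b) φ :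
((crv a b).baseChange L).Point →+ ((crv a b).baseChange L').Point` (it needs decidable equality:
`classical`, or `open Classical in` for an auxiliary lemma; the group structure of `EP a b L` is the instance of
`Defs.lean`, which is Mathlib's instance for the classical decidable equality) satisfies
`co (map φ P) i = φ (co P i)` (cases: `map_zero`, `map_some`). By `co_inj` (with `c = 1`) `P' = map φ P` and
`Q' = map φ Q`, and `map_add` gives the claim.
-/

set_option autoImplicit false

universe u

namespace Pool.Agent.Lib.MP_17a322_nt.EA

open MvPolynomial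
open Pool.Agent.Lib.MP_17a322_nt.VA

theorem isImg_ptOf {K : Type u} [Field K] {a b : K} {L L' : Type u} [Field L] [Algebra K L]
    [Field L'] [Algebra K L'] (φ : L →ₐ[K] L') (P : EP a b L) (P' : EP a b L') :
    IsImg φ (ptOf P) (ptOf P') ↔ ∀ i, φ (co P i) = co P' i := by
  obtain ⟨c, hc, h⟩ := ptOf_rep P
  obtain ⟨c', hc', h'⟩ := ptOf_rep P'
  have hφc : φ c ≠ 0 := (map_ne_zero φ).2 hc
  constructor
  · rintro ⟨d, hd, e⟩
    -- the coordinates are proportional
    have key : ∀ i, φ c * φ (co P i) = (d * c') * co P' i := by
      intro i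
      have := e i
      rw [h i, h' i, map_mul] at this
      rw [this]
      ring
    have hdc : d * c' ≠ 0 := mul_ne_zero hd hc'
    have k2 := key 2
    have k1 := key 1
    cases P with
    | zero =>
      cases P' with
      | zero =>
        intro i
        fin_cases i <;> simp [co]
      | some x' y' e' =>
        exfalso
        simp [co] at k2
        rcases k2 with k2 | k2
        · exact hd k2
        · exact hc' k2
    | some x y e0 =>
      cases P' with
      | zero =>
        exfalso
        simp [co] at k2
        exact hc k2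
      | some x' y' e' =>
        have e1 : φ c = d * c' := by
          simpa [co] using k2
        intro i
        have := key i
        rw [e1] at this
        exact mul_left_cancel₀ hdc this
  · intro e
    refine ⟨φ c / c', div_ne_zero hφc hc', fun i => ?_⟩
    rw [h i, h' i, map_mul, e i]
    field_simp

open Classical in
theorem co_map_aux {K : Type u} [Field K] {a b : K} {L L' : Type u} [Field L] [Algebra K L]
    [Field L'] [Algebra K L'] (φ : L →ₐ[K] L') (P : EP a b L) (i : Fin (2 + 1)) :
    co (a := a) (b := b) (WeierstrassCurve.Affine.Point.map (W' := crv a b) φ P) i =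
      φ (co P i) := by
  cases P with
  | zero =>
    change (![0, 1, 0] : Fin (2 + 1) → L') i = φ ((![0, 1, 0] : Fin (2 + 1) → L) i)
    fin_cases i <;> simp
  | some x y h =>
    change (![φ x, φ y, 1] : Fin (2 + 1) → L') i = φ ((![x, y, 1] : Fin (2 + 1) → L) i)
    fin_cases i <;> simp

theorem co_add {K : Type u} [Field K] {a b : K} {L L' : Type u} [Field L] [Algebra K L]
    [Field L'] [Algebra K L'] (φ : L →ₐ[K] L') {P Q : EP a b L} {P' Q' : EP a b L'}
    (hP : ∀ i, φ (co P i) = co P' i) (hQ : ∀ i, φ (co Q i) = co Q' i) :
    ∀ i, φ (co (P + Q) i) = co (P' + Q') i := by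
  classical
  have h1 : P' = WeierstrassCurve.Affine.Point.map (W' := crv a b) φ P :=
    co_inj (c := 1) one_ne_zero fun i => by
      rw [one_mul, co_map_aux, hP i]
  have h2 : Q' = WeierstrassCurve.Affine.Point.map (W' := crv a b) φ Q :=
    co_inj (c := 1) one_ne_zero fun i => by
      rw [one_mul, co_map_aux, hQ i]
  have h3 : P' + Q' = WeierstrassCurve.Affine.Point.map (W' := crv a b) φ (P + Q) := by
    rw [h1, h2]
    exact (_root_.map_add (WeierstrassCurve.Affine.Point.map (W' := crv a b) φ) P Q).symm
  intro i
  rw [h3, co_map_aux]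

end Pool.Agent.Lib.MP_17a322_nt.EA
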