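import Pool.Agent.Lib.MP_17a322_ntEA.Base

/-!
# B2: the forms in the generic case, row 1

`P = (x, y)`, `Q = (z, t)` are points of the curve `y² = x³ + a x + b` with `x ≠ z`; `P + Q = (X, Y)` and
`P - Q = (Z, T)`, with the slopes `l` and `m`. The three values `sf a b P Q 1 j` are
`(x - z)³` times the products of the coordinates.

Proof. The three cases (`fin_cases j`; `simp only [sf, ...]` with `Matrix.cons_val_zero`,
`Matrix.cons_val_one`, `Matrix.cons_val` and so on, or `change` with the explicit form) are polynomial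
identities modulo `h1`, `h2`. A way without search for coefficients: solve for `a` and `b`:
`b = y² - x³ - a x`, and `a (x - z) = y² - t² - x³ + z³`, so `a = (y² - t² - x³ + z³) / (x - z)`; also
`l = (y - t) / (x - z)`, `m = (y + t) / (x - z)`; substitute everything (`subst`), `field_simp`, `ring`.
(The identities are checked numerically. `x - z ≠ 0` is `sub_ne_zero.2 hxz`.)
-/

set_option autoImplicit false

universe u

namespace Pool.Agent.Lib.MP_17a322_nt.EA

open MvPolynomial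
open Pool.Agent.Lib.MP_17a322_nt.VA

theorem sf_generic_1 {F : Type u} [Field F] {a b x y z t : F} (h1 : y ^ 2 = x ^ 3 + a * x + b)
    (h2 : t ^ 2 = z ^ 3 + a * z + b) (hxz : x ≠ z) {l m X Y Z T : F} (hl : l * (x - z) = y - t)
    (hm : m * (x - z) = y + t) (hX : X = l ^ 2 - x - z) (hY : Y = -(l * (X - x) + y))
    (hZ : Z = m ^ 2 - x - z) (hT : T = -(m * (Z - x) + y)) (j : Fin (2 + 1)) :
    sf a b ![x, y, 1] ![z, t, 1] 1 j = (x - z) ^ 3 * (![X, Y, 1] 1 * ![Z, T, 1] j) := by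
  have hd : x - z ≠ 0 := sub_ne_zero.2 hxz
  have hl' : l = (y - t) / (x - z) := (eq_div_iff hd).2 hl
  have hm' : m = (y + t) / (x - z) := (eq_div_iff hd).2 hm
  have ha : a = (y ^ 2 - t ^ 2 - x ^ 3 + z ^ 3) / (x - z) :=
    (eq_div_iff hd).2 (by linear_combination h2 - h1)
  have hb : b = y ^ 2 - x ^ 3 - a * x := by linear_combination -h1
  clear h1 h2 hl hm hxz
  fin_cases j
  · change y * t * (z * y - x * t) + a * (z ^ 2 * y * 1 - x ^ 2 * t * 1) + 2 * a * x * z * (y * 1 - t * 1) +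
      3 * b * (x * y * 1 ^ 2 - z * t * 1 ^ 2) + 6 * b * 1 * 1 * (z * y - x * t) -
      a ^ 2 * 1 * 1 * (y * 1 - t * 1) = (x - z) ^ 3 * (Y * Z)
    subst hX hY hZ hT hb ha hl' hm'
    field_simp
    ring
  · change -(y ^ 2 * t ^ 2) - 3 * a * x ^ 2 * z ^ 2 - 9 * b * x * z * (x * 1 + z * 1) +
        a ^ 2 * (x ^ 2 * 1 ^ 2 + 4 * x * z * 1 * 1 + z ^ 2 * 1 ^ 2) +
        3 * a * b * 1 * 1 * (x * 1 + z * 1) + (9 * b ^ 2 + a ^ 3) * 1 ^ 2 * 1 ^ 2 = (x - z) ^ 3 * (Y * T)
    subst hX hY hZ hT hb ha hl' hm'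
    field_simp
    ring
  · change y * t * (y * 1 - t * 1) + 3 * x * z * (x * t - z * y) + 2 * a * 1 * 1 * (x * t - z * y) -
        a * (x * y * 1 ^ 2 - z * t * 1 ^ 2) - 3 * b * 1 * 1 * (y * 1 - t * 1) = (x - z) ^ 3 * (Y * 1)
    subst hX hY hZ hT hb ha hl' hm'
    field_simp
    ring

end Pool.Agent.Lib.MP_17a322_nt.EA
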