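import Pool.Agent.Lib.MP_17a322_ntEA.Base

/-!
# B4: the forms if the abscissas are equal

`P = (x, y)` a point of `y² = x³ + a x + b`. `sf_double`: `P = Q` and `2 y ≠ 0`: `P + Q = 2 P = (X, Y)`, with
the slope `l`, `2 y l = 3 x² + a`, and `P - Q = O = (0 : 1 : 0)`. `sf_opp`: `Q = - P`: `P + Q = O` and
`P - Q = 2 P`. `sf_tors`: `y = 0`, `P = Q`: `P + Q = P - Q = O`.

Proofs: `fin_cases i <;> fin_cases j`, `simp [sf]`, then for the two first: `b = y² - x³ - a x`,
`a = 2 y l - 3 x²` (solve `hl` for `a`), `subst`, `ring`; for the third: `b = - x³ - a x`, `ring`.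
(All the identities are checked numerically: only the entries with the index `1` at the place of `O` are
not `0`.)
-/

set_option autoImplicit false

universe u

namespace Pool.Agent.Lib.MP_17a322_nt.EA

open MvPolynomial
open Pool.Agent.Lib.MP_17a322_nt.VA

theorem sf_double {F : Type u} [Field F] {a b x y l X Y : F} (h1 : y ^ 2 = x ^ 3 + a * x + b)
    (hl : l * (2 * y) = 3 * x ^ 2 + a) (hX : X = l ^ 2 - 2 * x) (hY : Y = -(l * (X - x) + y))
    (i j : Fin (2 + 1)) :
    sf a b ![x, y, 1] ![x, y, 1] i j = -8 * y ^ 3 * (![X, Y, 1] i * ![0, 1, 0] j) := by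
  obtain rfl : b = y ^ 2 - x ^ 3 - a * x := by linear_combination -h1
  obtain rfl : a = l * (2 * y) - 3 * x ^ 2 := by linear_combination -hl
  subst hX
  subst hY
  fin_cases i <;> fin_cases j <;> simp [sf] <;> ring

theorem sf_opp {F : Type u} [Field F] {a b x y l X Y : F} (h1 : y ^ 2 = x ^ 3 + a * x + b)
    (hl : l * (2 * y) = 3 * x ^ 2 + a) (hX : X = l ^ 2 - 2 * x) (hY : Y = -(l * (X - x) + y))
    (i j : Fin (2 + 1)) :
    sf a b ![x, y, 1] ![x, -y, 1] i j = -8 * y ^ 3 * (![0, 1, 0] i * ![X, Y, 1] j) := by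
  obtain rfl : b = y ^ 2 - x ^ 3 - a * x := by linear_combination -h1
  obtain rfl : a = l * (2 * y) - 3 * x ^ 2 := by linear_combination -hl
  subst hX
  subst hY
  fin_cases i <;> fin_cases j <;> simp [sf] <;> ring

theorem sf_tors {F : Type u} [Field F] {a b x : F} (h1 : 0 = x ^ 3 + a * x + b)
    (i j : Fin (2 + 1)) :
    sf a b ![x, 0, 1] ![x, 0, 1] i j = (3 * x ^ 2 + a) ^ 3 * (![0, 1, 0] i * ![0, 1, 0] j) := by
  obtain rfl : b = - x ^ 3 - a * x := by linear_combination -h1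
  fin_cases i <;> fin_cases j <;> simp [sf] <;> ring

end Pool.Agent.Lib.MP_17a322_nt.EA
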