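import Pool.Agent.Lib.MP_17a322_ntEA.Base

/-!
# B5: the forms if one of the points is the origin

`fin_cases i <;> fin_cases j`, `simp [sf]`, and `ring` (the equation of the curve is not needed).
-/

set_option autoImplicit false

universe u

namespace Pool.Agent.Lib.MP_17a322_nt.EA

open MvPolynomial
open Pool.Agent.Lib.MP_17a322_nt.VA

theorem sf_OP {F : Type u} [Field F] (a b x y : F) (i j : Fin (2 + 1)) :
    sf a b ![0, 1, 0] ![x, y, 1] i j = 1 * (![x, y, 1] i * ![x, -y, 1] j) := by
  fin_cases i <;> fin_cases j <;> simp [sf] <;> ring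

theorem sf_PO {F : Type u} [Field F] (a b x y : F) (i j : Fin (2 + 1)) :
    sf a b ![x, y, 1] ![0, 1, 0] i j = -1 * (![x, y, 1] i * ![x, y, 1] j) := by
  fin_cases i <;> fin_cases j <;> simp [sf] <;> ring

theorem sf_OO {F : Type u} [Field F] (a b : F) (i j : Fin (2 + 1)) :
    sf a b ![0, 1, 0] ![0, 1, 0] i j = -1 * (![0, 1, 0] i * ![0, 1, 0] j) := by
  fin_cases i <;> fin_cases j <;> simp [sf]

end Pool.Agent.Lib.MP_17a322_nt.EA
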