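import Pool.Agent.Lib.MP_17a322_ntEA.Base
import Pool.Agent.Lib.MP_17a322_ntEA.B1
import Pool.Agent.Lib.MP_17a322_ntEA.B2
import Pool.Agent.Lib.MP_17a322_ntEA.B3
import Pool.Agent.Lib.MP_17a322_ntEA.B4
import Pool.Agent.Lib.MP_17a322_ntEA.B5

/-!
# B6: the forms give the sum and the difference

Cases. `P = O` or `Q = O`: B5 (`neg_some`: the opposite of `(x, y)` is `(x, negY x y)`, and
`negY x y = - y` since `a₁ = a₃ = 0`: `simp [WeierstrassCurve.Affine.negY, WeierstrassCurve.baseChange, crv]`).
`P = (x, y)`, `Q = (z, t)` with `x ≠ z`: B1, B2, B3 with `c = (x - z)³`; the sum is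
`add_of_X_ne` (`addX`, `addY`, `negAddY`, `slope_of_X_ne`), the difference is `P + (- Q)`.
`x = z`: then `t² = y²`, so `t = y` or `t = - y`. If `y = 0` (so `t = 0`, `Q = P = - P`): `sf_tors`;
`3 x² + a ≠ 0` since the curve is nonsingular (`WeierstrassCurve.Affine.nonsingular_iff` for the point
`(x, 0)`; `P + P = 0` by `add_self_of_Y_eq`, `P - P = 0`).
If `y ≠ 0`: `2 y ≠ 0` because `2 ≠ 0` in `L`: otherwise `Δ = -16 (4 a³ + 27 b²) = 0` in `K` (for this use
`hΔ : (crv a b).Δ ≠ 0`; `simp [WeierstrassCurve.Δ, WeierstrassCurve.b₂, ..., crv]`). If `t = y`: `Q = P`,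
`sf_double`, `add_self_of_Y_ne`, `slope_of_Y_ne`, `P - P = 0`; if `t = - y`: `Q = - P`, `sf_opp`,
`P - Q = P + P`. `c = - 8 y³`, `8 = 2³`.
The group of `EP a b L` is Mathlib's group for the classical decidable equality (instance in `Defs.lean`).
-/

set_option autoImplicit false

universe u

namespace Pool.Agent.Lib.MP_17a322_nt.EA

open MvPolynomial
open Pool.Agent.Lib.MP_17a322_nt.VA

section B6

variable {K : Type u} [Field K] {a b : K} {L : Type u} [Field L] [Algebra K L]

private theorem B6_negY (x y : L) : ((crv a b).baseChange L).toAffine.negY x y = -y := by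
  simp [WeierstrassCurve.Affine.negY, WeierstrassCurve.baseChange, crv]

private theorem B6_add {x y z t : L} (h : ((crv a b).baseChange L).toAffine.Nonsingular x y)
    (h' : ((crv a b).baseChange L).toAffine.Nonsingular z t) (hx : x ≠ z) :
    ∃ l X Y : L, l * (x - z) = y - t ∧ X = l ^ 2 - x - z ∧ Y = -(l * (X - x) + y) ∧
      co ((WeierstrassCurve.Affine.Point.some x y h : EP a b L) +
        (WeierstrassCurve.Affine.Point.some z t h' : EP a b L)) = ![X, Y, 1] := by
  classical
  have hxz := sub_ne_zero.2 hx
  refine ⟨(y - t) / (x - z), _, _, div_mul_cancel₀ _ hxz, rfl, rfl, ?_⟩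
  have h1 := WeierstrassCurve.Affine.Point.add_of_X_ne (h₁ := h) (h₂ := h') hx
  refine (congrArg co h1).trans ?_
  show ![_, _, 1] = _
  rw [WeierstrassCurve.Affine.slope_of_X_ne hx]
  simp [WeierstrassCurve.Affine.addX, WeierstrassCurve.Affine.addY, WeierstrassCurve.Affine.negAddY,
    WeierstrassCurve.Affine.negY, WeierstrassCurve.baseChange, crv]

private theorem B6_dbl {x y : L} (h : ((crv a b).baseChange L).toAffine.Nonsingular x y)
    (hy : 2 * y ≠ 0) :
    ∃ l X Y : L, l * (2 * y) = 3 * x ^ 2 + algebraMap K L a ∧ X = l ^ 2 - 2 * x ∧ Y = -(l * (X - x) + y) ∧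
      co ((WeierstrassCurve.Affine.Point.some x y h : EP a b L) +
        (WeierstrassCurve.Affine.Point.some x y h : EP a b L)) = ![X, Y, 1] := by
  classical
  refine ⟨(3 * x ^ 2 + algebraMap K L a) / (2 * y), _, _, div_mul_cancel₀ _ hy, rfl, rfl, ?_⟩
  have hne : y ≠ ((crv a b).baseChange L).toAffine.negY x y := by
    rw [B6_negY]
    intro h1
    apply hy
    linear_combination h1
  have h1 := WeierstrassCurve.Affine.Point.add_self_of_Y_ne (h₁ := h) hne
  refine (congrArg co h1).trans ?_
  show ![_, _, 1] = _
  rw [WeierstrassCurve.Affine.slope_of_Y_ne rfl hne, B6_negY]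
  have h2 : y - -y = 2 * y := by ring
  rw [h2]
  simp [WeierstrassCurve.Affine.addX, WeierstrassCurve.Affine.addY, WeierstrassCurve.Affine.negAddY,
    WeierstrassCurve.Affine.negY, WeierstrassCurve.baseChange, crv]
  ring_nf
  simp

private theorem B6_neg {x y : L} (h : ((crv a b).baseChange L).toAffine.Nonsingular x y) :
    ∃ h' : ((crv a b).baseChange L).toAffine.Nonsingular x (-y),
      -(WeierstrassCurve.Affine.Point.some x y h : EP a b L) =
        WeierstrassCurve.Affine.Point.some x (-y) h' := by
  have h1 := (WeierstrassCurve.Affine.nonsingular_neg ..).mpr h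
  have h2 : ((crv a b).baseChange L).toAffine.Nonsingular x (-y) := by
    rw [B6_negY] at h1
    exact h1
  refine ⟨h2, ?_⟩
  show WeierstrassCurve.Affine.Point.some x (((crv a b).baseChange L).toAffine.negY x y) h1 = _
  congr 1
  exact B6_negY x y

private theorem B6_two (hΔ : (crv a b).Δ ≠ 0) : (2 : L) ≠ 0 := by
  intro h2
  have h3 : (2 : K) = 0 := by
    have h4 : algebraMap K L 2 = 0 := by
      rw [map_ofNat]
      exact h2
    exact (map_eq_zero _).1 h4
  apply hΔ
  have h4 : (crv a b).Δ = 2 * (-8 * (4 * a ^ 3 + 27 * b ^ 2)) := by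
    simp only [WeierstrassCurve.Δ, WeierstrassCurve.b₂, WeierstrassCurve.b₄, WeierstrassCurve.b₆,
      WeierstrassCurve.b₈, crv]
    ring
  rw [h4, h3, zero_mul]

end B6

theorem sf_spec {K : Type u} [Field K] {a b : K} (hΔ : (crv a b).Δ ≠ 0) {L : Type u} [Field L]
    [Algebra K L] (P Q : EP a b L) :
    ∃ c : L, c ≠ 0 ∧ ∀ i j, sf (algebraMap K L a) (algebraMap K L b) (co P) (co Q) i j =
      c * (co (P + Q) i * co (P - Q) j) := by
  classical
  have h2 : (2 : L) ≠ 0 := B6_two hΔ
  cases P with
  | zero =>
    cases Q with
    | zero =>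
      refine ⟨-1, neg_ne_zero.2 one_ne_zero, fun i j => ?_⟩
      have e1 : ((WeierstrassCurve.Affine.Point.zero : EP a b L) + WeierstrassCurve.Affine.Point.zero) =
        WeierstrassCurve.Affine.Point.zero := zero_add (0 : EP a b L)
      have e2 : ((WeierstrassCurve.Affine.Point.zero : EP a b L) - WeierstrassCurve.Affine.Point.zero) =
        WeierstrassCurve.Affine.Point.zero := sub_zero (0 : EP a b L)
      rw [e1, e2]
      exact sf_OO _ _ i j
    | some z t h =>
      obtain ⟨h', hn⟩ := B6_neg h
      refine ⟨1, one_ne_zero, fun i j => ?_⟩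
      have e1 : ((WeierstrassCurve.Affine.Point.zero : EP a b L) + WeierstrassCurve.Affine.Point.some z t h) =
        WeierstrassCurve.Affine.Point.some z t h := zero_add (WeierstrassCurve.Affine.Point.some z t h : EP a b L)
      have e2 : ((WeierstrassCurve.Affine.Point.zero : EP a b L) - WeierstrassCurve.Affine.Point.some z t h) =
        WeierstrassCurve.Affine.Point.some z (-t) h' :=
        (zero_sub (WeierstrassCurve.Affine.Point.some z t h : EP a b L)).trans hn
      rw [e1, e2]
      exact sf_OP _ _ z t i j
  | some x y h =>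
    have hE := eq_of_equation h.1
    cases Q with
    | zero =>
      refine ⟨-1, neg_ne_zero.2 one_ne_zero, fun i j => ?_⟩
      have e1 : ((WeierstrassCurve.Affine.Point.some x y h : EP a b L) + WeierstrassCurve.Affine.Point.zero) =
        WeierstrassCurve.Affine.Point.some x y h := add_zero (WeierstrassCurve.Affine.Point.some x y h : EP a b L)
      have e2 : ((WeierstrassCurve.Affine.Point.some x y h : EP a b L) - WeierstrassCurve.Affine.Point.zero) =
        WeierstrassCurve.Affine.Point.some x y h := sub_zero (WeierstrassCurve.Affine.Point.some x y h : EP a b L)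
      rw [e1, e2]
      exact sf_PO _ _ x y i j
    | some z t k =>
      have hE' := eq_of_equation k.1
      obtain ⟨k', hn⟩ := B6_neg k
      by_cases hx : x = z
      · subst hx
        have hyt : (y - t) * (y + t) = 0 := by linear_combination hE - hE'
        by_cases hy : y = 0
        · -- two torsion
          subst hy
          have ht : t = 0 := by
            have h3 : t ^ 2 = 0 := by linear_combination hE' - hE
            exact pow_eq_zero_iff (two_ne_zero) |>.1 h3
          subst ht
          have h3 : 3 * x ^ 2 + algebraMap K L a ≠ 0 := by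
            have h4 := h
            rw [WeierstrassCurve.Affine.nonsingular_iff] at h4
            have h5 := h4.2
            simp [WeierstrassCurve.baseChange, crv] at h5
            intro h6
            exact h5 (by linear_combination -h6)
          refine ⟨(3 * x ^ 2 + algebraMap K L a) ^ 3, pow_ne_zero _ h3, fun i j => ?_⟩
          have e1 : ((WeierstrassCurve.Affine.Point.some x 0 h : EP a b L) +
              WeierstrassCurve.Affine.Point.some x 0 k) = WeierstrassCurve.Affine.Point.zero :=
            WeierstrassCurve.Affine.Point.add_of_Y_eq (h₁ := h) (h₂ := k) rfl (by rw [B6_negY, neg_zero])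
          have e2 : ((WeierstrassCurve.Affine.Point.some x 0 h : EP a b L) -
              WeierstrassCurve.Affine.Point.some x 0 k) = WeierstrassCurve.Affine.Point.zero :=
            sub_self (WeierstrassCurve.Affine.Point.some x 0 h : EP a b L)
          rw [e1, e2]
          exact sf_tors (by linear_combination hE) i j
        · have hc : -8 * y ^ 3 ≠ 0 := by
            have h8 : (-8 : L) = -(2 ^ 3) := by norm_num
            rw [h8]
            exact mul_ne_zero (neg_ne_zero.2 (pow_ne_zero _ h2)) (pow_ne_zero _ hy)
          have hy2 : 2 * y ≠ 0 := mul_ne_zero h2 hy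
          rcases mul_eq_zero.1 hyt with h3 | h3
          · -- equal points
            have ht : t = y := (sub_eq_zero.1 h3).symm
            subst ht
            obtain ⟨l, X, Y, hl, hX, hY, hco⟩ := B6_dbl h hy2
            refine ⟨_, hc, fun i j => ?_⟩
            have e2 : ((WeierstrassCurve.Affine.Point.some x t h : EP a b L) -
                WeierstrassCurve.Affine.Point.some x t k) = WeierstrassCurve.Affine.Point.zero :=
              sub_self (WeierstrassCurve.Affine.Point.some x t h : EP a b L)
            rw [e2, hco]
            exact sf_double hE hl hX hY i j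
          · have ht : t = -y := by linear_combination h3
            subst ht
            obtain ⟨l, X, Y, hl, hX, hY, hco⟩ := B6_dbl h hy2
            refine ⟨_, hc, fun i j => ?_⟩
            have e1 : ((WeierstrassCurve.Affine.Point.some x y h : EP a b L) +
                WeierstrassCurve.Affine.Point.some x (-y) k) = WeierstrassCurve.Affine.Point.zero :=
              WeierstrassCurve.Affine.Point.add_of_Y_eq (h₁ := h) (h₂ := k) rfl (by rw [B6_negY, neg_neg])
            have e2 : ((WeierstrassCurve.Affine.Point.some x y h : EP a b L) -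
                WeierstrassCurve.Affine.Point.some x (-y) k) =
                (WeierstrassCurve.Affine.Point.some x y h : EP a b L) +
                  WeierstrassCurve.Affine.Point.some x y h := by
              rw [sub_eq_add_neg, hn]
              congr 2
              exact neg_neg y
            rw [e1, e2, hco]
            exact sf_opp hE hl hX hY i j
      · obtain ⟨l, X, Y, hl, hX, hY, hco⟩ := B6_add h k hx
        obtain ⟨m, Z, T, hm, hZ, hT, hco'⟩ := B6_add h k' hx
        refine ⟨(x - z) ^ 3, pow_ne_zero _ (sub_ne_zero.2 hx), fun i j => ?_⟩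
        have e2 : ((WeierstrassCurve.Affine.Point.some x y h : EP a b L) -
            WeierstrassCurve.Affine.Point.some z t k) =
            (WeierstrassCurve.Affine.Point.some x y h : EP a b L) +
              WeierstrassCurve.Affine.Point.some z (-t) k' := by
          rw [sub_eq_add_neg, hn]
        rw [e2, hco, hco']
        have hm' : m * (x - z) = y + t := by linear_combination hm
        have h0 := sf_generic_0 hE hE' hx hl hm' hX hY hZ hT j
        have h1 := sf_generic_1 hE hE' hx hl hm' hX hY hZ hT j
        have h2 := sf_generic_2 hE hE' hx hl hm' hX hY hZ hT j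
        fin_cases i
        · exact h0
        · exact h1
        · exact h2

end Pool.Agent.Lib.MP_17a322_nt.EA
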