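import Pool.Agent.Lib.MP_17a322_ntEA.Defs

/-!
Points of the cubic and of the Segre embedding of a product: definitions and first properties.

`ptOf P` is the point of the plane cubic with coordinates `co P`; `sgPt hI hJ p q` is the point of the
product (in the Segre embedding) given by the points `p` and `q`. `Hom I`: the ideal is homogeneous.
`Bih d e f`: the polynomial `f` is bihomogeneous of bidegree `(d, e)`.
-/

set_option autoImplicit false

universe u

namespace Pool.Agent.Lib.MP_17a322_nt.EA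

open MvPolynomial
open Pool.Agent.Lib.MP_17a322_nt.VA

/-- The ideal is homogeneous. -/
def Hom {K : Type u} [Field K] {N : ℕ} (I : Ideal (MvPolynomial (Fin (N + 1)) K)) : Prop :=
  ∀ f ∈ I, ∀ d, homogeneousComponent d f ∈ I

/-- The ideal is prime over every extension field. -/
def GPrime {K : Type u} [Field K] {N : ℕ} (I : Ideal (MvPolynomial (Fin (N + 1)) K)) : Prop :=
  ∀ (L : Type u) [Field L] [Algebra K L],
    (I.map (MvPolynomial.map (σ := Fin (N + 1)) (algebraMap K L))).IsPrime

/-- The polynomial is bihomogeneous of bidegree `(d, e)`. -/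
def Bih {K : Type u} [Field K] {N M : ℕ} (d e : ℕ) (f : MvPolynomial (Fin (N + 1) ⊕ Fin (M + 1)) K) :
    Prop :=
  ∀ m ∈ f.support, ∑ i, m (Sum.inl i) = d ∧ ∑ i, m (Sum.inr i) = e

section Cubic

variable {K : Type u} [Field K] {a b : K} {L : Type u} [Field L] [Algebra K L]

theorem co_ne_zero (P : EP a b L) : co P ≠ 0 := by
  cases P with
  | zero =>
    intro h
    have := congrFun h 1
    simp [co] at this
  | some x y h0 =>
    intro h
    have := congrFun h 2
    simp [co] at this

theorem bc_eq (a b : K) (L : Type u) [Field L] [Algebra K L] :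
    (crv a b).baseChange L = crv (algebraMap K L a) (algebraMap K L b) := by
  simp [WeierstrassCurve.baseChange, crv, WeierstrassCurve.map]

theorem eq_of_equation {x y : L} (h : ((crv a b).baseChange L).toAffine.Equation x y) :
    y ^ 2 = x ^ 3 + algebraMap K L a * x + algebraMap K L b := by
  rw [WeierstrassCurve.Affine.equation_iff] at h
  simpa [WeierstrassCurve.baseChange, crv, WeierstrassCurve.map] using h

theorem nonsingular_of_eq (hΔ : (crv a b).Δ ≠ 0) {x y : L}
    (h : y ^ 2 = x ^ 3 + algebraMap K L a * x + algebraMap K L b) :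
    ((crv a b).baseChange L).toAffine.Nonsingular x y := by
  have h1 : ((crv a b).baseChange L).Δ ≠ 0 := by
    rw [WeierstrassCurve.baseChange, WeierstrassCurve.map_Δ]
    exact (map_ne_zero _).2 hΔ
  rw [← WeierstrassCurve.Affine.equation_iff_nonsingular_of_Δ_ne_zero h1,
    WeierstrassCurve.Affine.equation_iff]
  simpa [WeierstrassCurve.baseChange, crv, WeierstrassCurve.map] using h

theorem vanish_iff (v : Fin (2 + 1) → L) : (∀ f ∈ cubI a b, aeval v f = 0) ↔
    v 1 ^ 2 * v 2 = v 0 ^ 3 + algebraMap K L a * v 0 * v 2 ^ 2 + algebraMap K L b * v 2 ^ 3 := by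
  have key : aeval v (cub a b) = v 1 ^ 2 * v 2 - v 0 ^ 3 - algebraMap K L a * v 0 * v 2 ^ 2 -
      algebraMap K L b * v 2 ^ 3 := by
    simp [cub]
  constructor
  · intro h
    have := h (cub a b) (Ideal.subset_span rfl)
    rw [key] at this
    linear_combination this
  · intro h f hf
    obtain ⟨g, rfl⟩ := Ideal.mem_span_singleton.1 hf
    rw [map_mul, key, show v 1 ^ 2 * v 2 - v 0 ^ 3 - algebraMap K L a * v 0 * v 2 ^ 2 -
      algebraMap K L b * v 2 ^ 3 = 0 by linear_combination h, zero_mul]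

theorem vanish_co (P : EP a b L) (c : L) : ∀ f ∈ cubI a b, aeval (c • co P) f = 0 := by
  rw [vanish_iff]
  cases P with
  | zero => simp [co]
  | some x y h =>
    have := eq_of_equation h.1
    simp only [co, Pi.smul_apply, smul_eq_mul, Matrix.cons_val_zero, Matrix.cons_val_one,
      Matrix.cons_val_two, Matrix.head_cons, Matrix.tail_cons]
    linear_combination c ^ 3 * this

/-- The point of the plane cubic given by the point `P` of the elliptic curve. -/
noncomputable def ptOf (P : EP a b L) : Pt (cubI a b) L :=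
  ⟨Projectivization.mk L (co P) (co_ne_zero P), by
    obtain ⟨c, hc⟩ := Projectivization.exists_smul_eq_mk_rep L (co P) (co_ne_zero P)
    rw [← hc]
    exact vanish_co P c⟩

theorem ptOf_rep (P : EP a b L) : ∃ c : L, c ≠ 0 ∧ ∀ i, (ptOf P).1.rep i = c * co P i := by
  obtain ⟨c, hc⟩ := Projectivization.exists_smul_eq_mk_rep L (co P) (co_ne_zero P)
  refine ⟨c, c.ne_zero, fun i => ?_⟩
  change (Projectivization.mk L (co P) (co_ne_zero P)).rep i = _
  rw [← hc]
  rfl

end Cubic

section Segre

theorem aeval_smul_hom {K : Type u} [Field K] {N : ℕ} {g : MvPolynomial (Fin (N + 1)) K} {d : ℕ}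
    (hg : g.IsHomogeneous d) {R : Type u} [CommRing R] [Algebra K R] (v : Fin (N + 1) → R) (c : R) :
    aeval (c • v) g = c ^ d * aeval v g := by
  rw [aeval_def, eval₂_eq', aeval_def, eval₂_eq', Finset.mul_sum]
  refine Finset.sum_congr rfl fun m hm => ?_
  have h1 : ∑ i, m i = d := by
    have h2 := hg (mem_support_iff.1 hm)
    rw [Finsupp.weight_apply, Finsupp.sum_fintype _ _ (by simp)] at h2
    simpa using h2
  have h3 : ∏ i, (c • v) i ^ m i = c ^ d * ∏ i, v i ^ m i := by
    rw [← h1, ← Finset.prod_pow_eq_pow_sum, ← Finset.prod_mul_distrib]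
    exact Finset.prod_congr rfl fun i _ => by rw [Pi.smul_apply, smul_eq_mul, mul_pow]
  rw [h3]
  ring

theorem vanish_smul {K : Type u} [Field K] {N : ℕ} {I : Ideal (MvPolynomial (Fin (N + 1)) K)}
    (hI : Hom I) {R : Type u} [CommRing R] [Algebra K R] {v : Fin (N + 1) → R}
    (hv : ∀ f ∈ I, aeval v f = 0) (c : R) : ∀ f ∈ I, aeval (c • v) f = 0 := by
  intro f hf
  rw [← sum_homogeneousComponent f, map_sum]
  refine Finset.sum_eq_zero fun d _ => ?_
  rw [aeval_smul_hom (homogeneousComponent_isHomogeneous d f), hv _ (hI f hf d), mul_zero]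

theorem aeval_sgh {K : Type u} [Field K] {N M : ℕ} {R : Type u} [CommRing R] [Algebra K R]
    (x : Fin (N + 1) → R) (y : Fin (M + 1) → R) (f : MvPolynomial (Fin (N * M + N + M + 1)) K) :
    aeval (Sum.elim x y) (sgh K N M f) = aeval (sg x y) f := by
  have h : (aeval (Sum.elim x y)).comp (sgh K N M) = aeval (sg x y) := by
    apply MvPolynomial.algHom_ext
    intro k
    simp [sgh, sg]
  exact DFunLike.congr_fun h f

theorem vanish_JJ {K : Type u} [Field K] {N M : ℕ} {I : Ideal (MvPolynomial (Fin (N + 1)) K)}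
    {J : Ideal (MvPolynomial (Fin (M + 1)) K)} {R : Type u} [CommRing R] [Algebra K R]
    {x : Fin (N + 1) → R} {y : Fin (M + 1) → R} (hx : ∀ f ∈ I, aeval x f = 0)
    (hy : ∀ f ∈ J, aeval y f = 0) : ∀ f ∈ JJ I J, aeval (Sum.elim x y) f = 0 := by
  intro f hf
  have h : JJ I J ≤ RingHom.ker (aeval (Sum.elim x y) :
      MvPolynomial (Fin (N + 1) ⊕ Fin (M + 1)) K →ₐ[K] R) := by
    refine sup_le ?_ ?_
    · rw [Ideal.map_le_iff_le_comap]
      intro g hg
      rw [Ideal.mem_comap, RingHom.mem_ker, aeval_rename]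
      exact hx g hg
    · rw [Ideal.map_le_iff_le_comap]
      intro g hg
      rw [Ideal.mem_comap, RingHom.mem_ker, aeval_rename]
      exact hy g hg
  exact h hf

theorem vanish_pI {K : Type u} [Field K] {N M : ℕ} {I : Ideal (MvPolynomial (Fin (N + 1)) K)}
    {J : Ideal (MvPolynomial (Fin (M + 1)) K)} {R : Type u} [CommRing R] [Algebra K R]
    {x : Fin (N + 1) → R} {y : Fin (M + 1) → R} (hx : ∀ f ∈ I, aeval x f = 0)
    (hy : ∀ f ∈ J, aeval y f = 0) : ∀ f ∈ pI I J, aeval (sg x y) f = 0 := by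
  intro f hf
  rw [← aeval_sgh]
  exact vanish_JJ hx hy _ hf

theorem sg_ne_zero {L : Type u} [Field L] {N M : ℕ} {x : Fin (N + 1) → L} {y : Fin (M + 1) → L}
    (hx : x ≠ 0) (hy : y ≠ 0) : sg x y ≠ 0 := by
  obtain ⟨i, hi⟩ := Function.ne_iff.1 hx
  obtain ⟨j, hj⟩ := Function.ne_iff.1 hy
  intro h
  have := congrFun h (pe N M (i, j))
  simp only [sg, Equiv.symm_apply_apply, Pi.zero_apply, mul_eq_zero] at this
  rcases this with h | h
  · exact hi h
  · exact hj h

theorem sg_smul {L : Type u} [Field L] {N M : ℕ} (c : L) (x : Fin (N + 1) → L)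
    (y : Fin (M + 1) → L) : c • sg x y = sg (c • x) y := by
  funext k
  simp only [sg, Pi.smul_apply, smul_eq_mul]
  ring

/-- The point of the product in the Segre embedding. -/
noncomputable def sgPt {K : Type u} [Field K] {N M : ℕ} {I : Ideal (MvPolynomial (Fin (N + 1)) K)}
    {J : Ideal (MvPolynomial (Fin (M + 1)) K)} (hI : Hom I) {L : Type u} [Field L] [Algebra K L]
    (p : Pt I L) (q : Pt J L) : Pt (pI I J) L :=
  ⟨Projectivization.mk L (sg p.1.rep q.1.rep)
    (sg_ne_zero p.1.rep_nonzero q.1.rep_nonzero), by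
    obtain ⟨c, hc⟩ := Projectivization.exists_smul_eq_mk_rep L (sg p.1.rep q.1.rep)
      (sg_ne_zero p.1.rep_nonzero q.1.rep_nonzero)
    rw [← hc, Units.smul_def, sg_smul]
    exact vanish_pI (vanish_smul hI p.2 _) q.2⟩

theorem sgPt_rep {K : Type u} [Field K] {N M : ℕ} {I : Ideal (MvPolynomial (Fin (N + 1)) K)}
    {J : Ideal (MvPolynomial (Fin (M + 1)) K)} (hI : Hom I) {L : Type u} [Field L] [Algebra K L]
    (p : Pt I L) (q : Pt J L) :
    ∃ c : L, c ≠ 0 ∧ ∀ k, (sgPt hI p q).1.rep k = c * sg p.1.rep q.1.rep k := by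
  obtain ⟨c, hc⟩ := Projectivization.exists_smul_eq_mk_rep L (sg p.1.rep q.1.rep)
    (sg_ne_zero p.1.rep_nonzero q.1.rep_nonzero)
  refine ⟨c, c.ne_zero, fun k => ?_⟩
  change (Projectivization.mk L (sg p.1.rep q.1.rep)
    (sg_ne_zero p.1.rep_nonzero q.1.rep_nonzero)).rep k = _
  rw [← hc]
  rfl

end Segre

end Pool.Agent.Lib.MP_17a322_nt.EA
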