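import Pool.Agent.Lib.MP_17a322_ntEA.Base

/-!
# C1: evaluation of the forms

`fin_cases i <;> fin_cases j`, `simp [sP, sf]` (`aeval_X`, `aeval_C`, `map_ofNat`), `ring`.
-/

set_option autoImplicit false

universe u

namespace Pool.Agent.Lib.MP_17a322_nt.EA

open MvPolynomial
open Pool.Agent.Lib.MP_17a322_nt.VA

theorem aeval_sP {K : Type u} [Field K] (a b : K) {R : Type u} [CommRing R] [Algebra K R]
    (p q : Fin (2 + 1) → R) (i j : Fin (2 + 1)) :
    aeval (Sum.elim p q) (sP a b i j) = sf (algebraMap K R a) (algebraMap K R b) p q i j := by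
  fin_cases i <;> fin_cases j <;> simp [sP, sf]

theorem sf_smul {R : Type u} [CommRing R] (a b s t : R) (p q : Fin (2 + 1) → R)
    (i j : Fin (2 + 1)) : sf a b (s • p) (t • q) i j = s ^ 2 * t ^ 2 * sf a b p q i j := by
  fin_cases i <;> fin_cases j <;> simp [sf] <;> ring

end Pool.Agent.Lib.MP_17a322_nt.EA
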