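import Pool.Agent.Lib.MP_17a322_ntEA.Base

/-!
# C2: bihomogeneous polynomials and scaling

`bih_smul`: as `aeval_smul_hom` in `Base.lean`: `aeval_def`, `eval₂_eq'`, the product over
`Fin (N + 1) ⊕ Fin (M + 1)` is `Fintype.prod_sum_type`, and `Finset.prod_pow_eq_pow_sum`.

`bih_of_smul`: apply the hypothesis with `R` the ring of polynomials in one variable `T` over
`MvPolynomial (Fin (N + 1) ⊕ Fin (M + 1)) K` (universe `u`), `x i = C (X (inl i))`, `y j = C (X (inr j))`,
first with `s = T`, `t = 1`: the left side is the sum over the support of `f` of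
`T ^ (∑ i, m (inl i)) * C (monomial m (coeff m f))`, the right side is `T ^ d * C f`. Compare
the coefficient of `T ^ k`, where `k = ∑ i, m (inl i)`, and then the coefficient of `m`: it is
`coeff m f ≠ 0` on the left side, so `k = d`. The same with `s = 1`, `t = T`.
-/

set_option autoImplicit false

universe u

namespace Pool.Agent.Lib.MP_17a322_nt.EA

open MvPolynomial
open Pool.Agent.Lib.MP_17a322_nt.VA

private theorem C2_mon {K : Type u} [Field K] {N M : ℕ} (m : Fin (N + 1) ⊕ Fin (M + 1) →₀ ℕ) (c : K)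
    {R : Type u} [CommRing R] [Algebra K R] (x : Fin (N + 1) → R) (y : Fin (M + 1) → R) (s t : R) :
    aeval (Sum.elim (s • x) (t • y)) (monomial m c) =
      s ^ (∑ i, m (Sum.inl i)) * t ^ (∑ i, m (Sum.inr i)) * aeval (Sum.elim x y) (monomial m c) := by
  rw [aeval_monomial, aeval_monomial, Finsupp.prod_fintype _ _ fun i => pow_zero _,
    Finsupp.prod_fintype _ _ fun i => pow_zero _, Fintype.prod_sum_type, Fintype.prod_sum_type]
  have h1 : ∏ i, (Sum.elim (s • x) (t • y) (Sum.inl i : Fin (N + 1) ⊕ Fin (M + 1))) ^ m (Sum.inl i) =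
      s ^ (∑ i, m (Sum.inl i)) * ∏ i, (x i) ^ m (Sum.inl i) := by
    rw [← Finset.prod_pow_eq_pow_sum, ← Finset.prod_mul_distrib]
    refine Finset.prod_congr rfl fun i _ => ?_
    rw [Sum.elim_inl, Pi.smul_apply, smul_eq_mul, mul_pow]
  have h2 : ∏ i, (Sum.elim (s • x) (t • y) (Sum.inr i : Fin (N + 1) ⊕ Fin (M + 1))) ^ m (Sum.inr i) =
      t ^ (∑ i, m (Sum.inr i)) * ∏ i, (y i) ^ m (Sum.inr i) := by
    rw [← Finset.prod_pow_eq_pow_sum, ← Finset.prod_mul_distrib]
    refine Finset.prod_congr rfl fun i _ => ?_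
    rw [Sum.elim_inr, Pi.smul_apply, smul_eq_mul, mul_pow]
  have h3 : ∏ i, (Sum.elim x y (Sum.inl i : Fin (N + 1) ⊕ Fin (M + 1))) ^ m (Sum.inl i) =
      ∏ i, (x i) ^ m (Sum.inl i) := rfl
  have h4 : ∏ i, (Sum.elim x y (Sum.inr i : Fin (N + 1) ⊕ Fin (M + 1))) ^ m (Sum.inr i) =
      ∏ i, (y i) ^ m (Sum.inr i) := rfl
  rw [h1, h2, h3, h4]
  ring

private theorem C2_sum {K : Type u} [Field K] {N M : ℕ} (f : MvPolynomial (Fin (N + 1) ⊕ Fin (M + 1)) K)
    {R : Type u} [CommRing R] [Algebra K R] (x : Fin (N + 1) → R) (y : Fin (M + 1) → R) (s t : R) :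
    aeval (Sum.elim (s • x) (t • y)) f = ∑ m ∈ f.support,
      s ^ (∑ i, m (Sum.inl i)) * t ^ (∑ i, m (Sum.inr i)) *
        aeval (Sum.elim x y) (monomial m (coeff m f)) := by
  conv_lhs => rw [← support_sum_monomial_coeff f, map_sum]
  exact Finset.sum_congr rfl fun m _ => C2_mon m _ x y s t

private theorem C2_key {σ : Type} {K : Type u} [Field K] (f : MvPolynomial σ K) (a : (σ →₀ ℕ) → ℕ) (d : ℕ)
    (h : ∑ m ∈ f.support, (Polynomial.X : Polynomial (MvPolynomial σ K)) ^ (a m) *
      Polynomial.C (monomial m (coeff m f)) = Polynomial.X ^ d * Polynomial.C f) :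
    ∀ m ∈ f.support, a m = d := by
  classical
  intro m₀ hm₀
  have h1 := congrArg (fun p => coeff m₀ (Polynomial.coeff p (a m₀))) h
  have h2 : coeff m₀ (Polynomial.coeff (∑ m ∈ f.support,
      (Polynomial.X : Polynomial (MvPolynomial σ K)) ^ (a m) *
        Polynomial.C (monomial m (coeff m f))) (a m₀)) = coeff m₀ f := by
    rw [Polynomial.finsetSum_coeff, coeff_sum, Finset.sum_eq_single m₀]
    · rw [Polynomial.coeff_mul_C, Polynomial.coeff_X_pow, if_pos rfl, one_mul, coeff_monomial, if_pos rfl]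
    · intro m _ hne
      rw [Polynomial.coeff_mul_C, Polynomial.coeff_X_pow]
      split_ifs
      · rw [one_mul, coeff_monomial, if_neg hne]
      · rw [zero_mul, coeff_zero]
    · intro g
      exact absurd hm₀ g
  by_contra hne
  have h3 : coeff m₀ (Polynomial.coeff ((Polynomial.X : Polynomial (MvPolynomial σ K)) ^ d *
      Polynomial.C f) (a m₀)) = 0 := by
    rw [Polynomial.coeff_mul_C, Polynomial.coeff_X_pow, if_neg hne, zero_mul, coeff_zero]
  exact mem_support_iff.1 hm₀ (h2.symm.trans (h1.trans h3))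

private theorem C2_C {σ : Type} {K : Type u} [Field K] (g : MvPolynomial σ K) :
    aeval (fun i : σ => (Polynomial.C (X i) : Polynomial (MvPolynomial σ K))) g = Polynomial.C g := by
  have h : (aeval (fun i : σ => (Polynomial.C (X i) : Polynomial (MvPolynomial σ K))) :
      MvPolynomial σ K →ₐ[K] Polynomial (MvPolynomial σ K)) = Polynomial.CAlgHom := by
    apply MvPolynomial.algHom_ext
    intro i
    rw [aeval_X]
    rfl
  exact DFunLike.congr_fun h g

theorem bih_smul {K : Type u} [Field K] {N M d e : ℕ}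
    {f : MvPolynomial (Fin (N + 1) ⊕ Fin (M + 1)) K} (hf : Bih d e f) {R : Type u} [CommRing R]
    [Algebra K R] (x : Fin (N + 1) → R) (y : Fin (M + 1) → R) (s t : R) :
    aeval (Sum.elim (s • x) (t • y)) f = s ^ d * t ^ e * aeval (Sum.elim x y) f := by
  rw [C2_sum]
  conv_rhs => rw [← support_sum_monomial_coeff f, map_sum, Finset.mul_sum]
  refine Finset.sum_congr rfl fun m hm => ?_
  rw [(hf m hm).1, (hf m hm).2]

theorem bih_of_smul {K : Type u} [Field K] {N M d e : ℕ}
    {f : MvPolynomial (Fin (N + 1) ⊕ Fin (M + 1)) K}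
    (hf : ∀ (R : Type u) [CommRing R] [Algebra K R] (x : Fin (N + 1) → R) (y : Fin (M + 1) → R)
      (s t : R), aeval (Sum.elim (s • x) (t • y)) f = s ^ d * t ^ e * aeval (Sum.elim x y) f) :
    Bih d e f := by
  have hel : Sum.elim (fun i : Fin (N + 1) => (Polynomial.C (X (Sum.inl i)) :
        Polynomial (MvPolynomial (Fin (N + 1) ⊕ Fin (M + 1)) K)))
      (fun i : Fin (M + 1) => (Polynomial.C (X (Sum.inr i)) :
        Polynomial (MvPolynomial (Fin (N + 1) ⊕ Fin (M + 1)) K))) = fun i => Polynomial.C (X i) := by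
    funext i
    rcases i with i | i
    · rfl
    · rfl
  have h1 := hf (Polynomial (MvPolynomial (Fin (N + 1) ⊕ Fin (M + 1)) K))
    (fun i => Polynomial.C (X (Sum.inl i))) (fun i => Polynomial.C (X (Sum.inr i))) Polynomial.X 1
  have h2 := hf (Polynomial (MvPolynomial (Fin (N + 1) ⊕ Fin (M + 1)) K))
    (fun i => Polynomial.C (X (Sum.inl i))) (fun i => Polynomial.C (X (Sum.inr i))) 1 Polynomial.X
  rw [C2_sum, hel, C2_C, one_pow, mul_one] at h1
  rw [C2_sum, hel, C2_C, one_pow, one_mul] at h2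
  have e1 := C2_key f (fun m => ∑ i, m (Sum.inl i)) d (by
    rw [← h1]
    refine Finset.sum_congr rfl fun m _ => ?_
    rw [one_pow, mul_one, C2_C])
  have e2 := C2_key f (fun m => ∑ i, m (Sum.inr i)) e (by
    rw [← h2]
    refine Finset.sum_congr rfl fun m _ => ?_
    rw [one_pow, one_mul, C2_C])
  exact fun m hm => ⟨e1 m hm, e2 m hm⟩

end Pool.Agent.Lib.MP_17a322_nt.EA
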