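import Pool.Agent.Lib.MP_17a322_ntEA.Base

/-!
# DL: the dimension of a product of elliptic curves, lower bound

There is a field `L` with points `P i` of the `n + 1` curves such that the ratios of the products of the
coordinates generate a field of transcendence degree at least `n + 1`.

Proof. `L` is the algebraic closure of the field of fractions of `MvPolynomial (Fin (n + 1)) K`
(`AlgebraicClosure (FractionRing (MvPolynomial (Fin (n + 1)) K))`, in `Type u`, a `K`-algebra), `t i` the image of
`X i`, `r i` a root of `Y² = (t i)³ + a i (t i) + b i` (`IsAlgClosed.exists_pow_nat_eq` or `IsSquare`),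
`P i = .some (t i) (r i) (nonsingular_of_eq (h i) _)`. The family `t` is algebraically independent over `K`
(`MvPolynomial.algebraicIndependent_X`, and the injectivity of `MvPolynomial _ K → FractionRing → L`:
`AlgebraicIndependent.map'`). With `t₀ = fun _ => 2` (all third coordinates are `1`) and
`s = Function.update t₀ i 0`: `y (κ s) / y (κ t₀) = t i`. So `t i` lies in the field
`F = adjoin K (range ...)` of `tdeg`, the family `t` in `F` is algebraically independent
(`AlgebraicIndependent.of_comp`/`algebraicIndependent_map_iff` for the injection `F → L`), and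
`#(Fin (n + 1)) ≤ trdeg` (`AlgebraicIndependent.cardinalMk_le_trdeg` / `lift_cardinalMk_le_trdeg`).
-/

set_option autoImplicit false

universe u

namespace Pool.Agent.Lib.MP_17a322_nt.EA

open Pool.Agent.Lib.MP_17a322_nt.VA

theorem exists_le_tdeg {K : Type u} [Field K] {n : ℕ} {a b : Fin (n + 1) → K}
    (h : ∀ i, (crv (a i) (b i)).Δ ≠ 0) :
    ∃ (L : Type u) (_ : Field L) (_ : Algebra K L) (P : ∀ i, EP (a i) (b i) L),
      ∀ (N : ℕ) (κ : (Fin (n + 1) → Fin (2 + 1)) ≃ Fin (N + 1)) (y : Fin (N + 1) → L) (c : L),
        c ≠ 0 → (∀ s, y (κ s) = c * ∏ i, co (P i) (s i)) →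
        ((n + 1 : ℕ) : Cardinal.{u}) ≤ tdeg K y := by
  classical
  let R : Type u := MvPolynomial (Fin (n + 1)) K
  let F : Type u := FractionRing R
  let L : Type u := AlgebraicClosure F
  let f : R →ₐ[K] L := (IsScalarTower.toAlgHom K F L).comp (IsScalarTower.toAlgHom K R F)
  have hf : Function.Injective f := by
    have h1 : Function.Injective (algebraMap F L) := (algebraMap F L).injective
    have h2 : Function.Injective (algebraMap R F) := IsFractionRing.injective R F
    exact h1.comp h2
  let t : Fin (n + 1) → L := fun i => f (MvPolynomial.X i)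
  have ht : AlgebraicIndependent K t := (MvPolynomial.algebraicIndependent_X (Fin (n + 1)) K).map' hf
  have hr : ∀ i, ∃ r : L, r ^ 2 = t i ^ 3 + algebraMap K L (a i) * t i + algebraMap K L (b i) := fun i =>
    IsAlgClosed.exists_pow_nat_eq _ two_pos
  choose r hr using hr
  let P : ∀ i, EP (a i) (b i) L := fun i => .some (t i) (r i) (nonsingular_of_eq (h i) (hr i))
  refine ⟨L, inferInstance, inferInstance, P, ?_⟩
  intro N κ y c hc hy
  have hco : ∀ i, co (P i) = ![t i, r i, 1] := fun i => rfl
  have h0 : y (κ (fun _ => 2)) = c := by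
    rw [hy]
    have h1 : ∏ i, co (P i) ((fun _ => 2 : Fin (n + 1) → Fin (2 + 1)) i) = 1 := by
      refine Finset.prod_eq_one fun i _ => ?_
      rw [hco]
      rfl
    rw [h1, mul_one]
  have h1 : ∀ i, y (κ (Function.update (fun _ => 2) i 0)) = c * t i := by
    intro i
    rw [hy]
    have h2 : ∏ j, co (P j) ((Function.update (fun _ => 2) i 0 : Fin (n + 1) → Fin (2 + 1)) j) = t i := by
      rw [Finset.prod_eq_single i]
      · rw [Function.update_self, hco]
        rfl
      · intro j _ hj
        rw [Function.update_of_ne hj, hco]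
        rfl
      · intro hi
        exact absurd (Finset.mem_univ i) hi
    rw [h2]
  have hmem : ∀ i, t i ∈ IntermediateField.adjoin K
      (Set.range fun p : Fin (N + 1) × Fin (N + 1) => y p.1 / y p.2) := by
    intro i
    refine IntermediateField.subset_adjoin K _
      ⟨(κ (Function.update (fun _ => 2) i 0), κ (fun _ => 2)), ?_⟩
    show y (κ (Function.update (fun _ => 2) i 0)) / y (κ (fun _ => 2)) = t i
    rw [h0, h1, mul_comm, mul_div_assoc, div_self hc, mul_one]
  let F' := IntermediateField.adjoin K (Set.range fun p : Fin (N + 1) × Fin (N + 1) => y p.1 / y p.2)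
  let t' : Fin (n + 1) → F' := fun i => ⟨t i, hmem i⟩
  have ht' : AlgebraicIndependent K t' := by
    refine AlgebraicIndependent.of_comp (IntermediateField.val F') ?_
    exact ht
  have h3 := ht'.lift_cardinalMk_le_trdeg
  rw [Cardinal.mk_fin, Cardinal.lift_natCast, Cardinal.lift_uzero] at h3
  exact h3

end Pool.Agent.Lib.MP_17a322_nt.EA
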