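import Pool.Agent.Lib.MP_17a322_ntEA.Base

/-!
# DU: the dimension of a product of elliptic curves, upper bound

`tdeg K y` (file `MP_17a322_nt/VA/AV.lean`) is the transcendence degree over `K` of the field generated by the
ratios of the coordinates of `y`. The coordinates of `y` are, up to a common factor, the products of the
coordinates of the points `P i` of the curves `y² = x³ + a i x + b i`, indexed by `κ`.

Proof. Let `xs, ys : Fin (n + 1) → L` be the affine coordinates of the points (`co (P i) 0`, `co (P i) 1`; for
`P i = O` these are `0`, `1`). All values `co (P i) j` lie in the field `F = K(xs, ys)`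
(`IntermediateField.adjoin K (range xs ∪ range ys)`), and so do all ratios `y k / y l` (the factor `c` cancels;
`k = κ s`, `l = κ t`), so the field of `tdeg` is contained in `F`. `F` is algebraic over `F₀ = K(xs)`:
`ys i` satisfies `Y² = x³ + a x + b` or `Y = 1`. So every transcendence basis of `F₀` over `K` contained in
`range xs` (Mathlib: `exists_isTranscendenceBasis_subset` or similar; or `trdeg` of an algebraic extension of a field
generated by the finite set `range xs`) is a transcendence basis of `F`, and it has at most `n + 1` elements.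
Mathlib: `Algebra.trdeg`, `IsTranscendenceBasis`, `Algebra.IsAlgebraic`, `Algebra.trdeg_le_cardinalMk`
(`⨆` over algebraically independent sets), `Algebra.trdeg_le_of_injective`/`trdeg_le_of_surjective`, and in
`Pool/Agent/Lib` several files treat `tdeg` and `trdeg` of generated fields. A possible way: an algebraically
independent family in the field of `tdeg` (over `K`) is algebraically independent in `L`; the matroid of
algebraic independence (`Mathlib.RingTheory.AlgebraicIndependent.TranscendenceBasis`): all elements of `F` are
algebraic over `adjoin K (range xs)`, so its cardinality is at most `#(range xs) ≤ n + 1`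
(`IsAlgebraic`, `AlgebraicIndependent`, `Algebra.IsAlgebraic.cardinalMk_le` or
`AlgebraicIndependent.cardinalMk_le_of_isAlgebraic`: search for the exchange statement).
-/

set_option autoImplicit false

universe u

namespace Pool.Agent.Lib.MP_17a322_nt.EA

open Pool.Agent.Lib.MP_17a322_nt.VA

private theorem DU_F0 {K : Type u} [Field K] {L : Type u} [Field L] [Algebra K L] {m : ℕ}
    (x : Fin m → L) :
    Algebra.trdeg K (IntermediateField.adjoin K (Set.range x)) ≤ ((m : ℕ) : Cardinal.{u}) := by
  have hm : ∀ i, x i ∈ IntermediateField.adjoin K (Set.range x) := fun i =>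
    IntermediateField.subset_adjoin _ _ ⟨i, rfl⟩
  obtain ⟨x', hx'⟩ : ∃ x' : Fin m → IntermediateField.adjoin K (Set.range x), ∀ i, (x' i : L) = x i :=
    ⟨fun i => ⟨x i, hm i⟩, fun i => rfl⟩
  have h1 : Subtype.val '' (Set.range x') = Set.range x := by
    rw [← Set.range_comp]
    exact congrArg Set.range (funext hx')
  have h2 : IntermediateField.adjoin K (Set.range x') = ⊤ := by
    apply IntermediateField.lift_injective
    rw [IntermediateField.lift_adjoin, h1, IntermediateField.lift_top]
  have h3 : Algebra.IsAlgebraic (IntermediateField.adjoin K (Set.range x'))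
      (IntermediateField.adjoin K (Set.range x)) := by
    refine ⟨fun z => ?_⟩
    have hz : z ∈ IntermediateField.adjoin K (Set.range x') := by
      rw [h2]
      exact IntermediateField.mem_top
    exact isAlgebraic_algebraMap (⟨z, hz⟩ : IntermediateField.adjoin K (Set.range x'))
  have h4 : Algebra.IsAlgebraic (Algebra.adjoin K (Set.range x'))
      (IntermediateField.adjoin K (Set.range x)) :=
    IntermediateField.isAlgebraic_adjoin_iff_top.1 h3
  refine (Algebra.IsAlgebraic.trdeg_le_cardinalMk K (Set.range x')).trans ?_
  have h5 := Cardinal.mk_range_le_lift (f := x')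
  rw [Cardinal.lift_id'.{0, u}] at h5
  refine h5.trans ?_
  rw [Cardinal.mk_fin, Cardinal.lift_natCast]

theorem tdeg_le {K : Type u} [Field K] {n N : ℕ} {a b : Fin (n + 1) → K} {L : Type u} [Field L]
    [Algebra K L] (P : ∀ i, EP (a i) (b i) L) (κ : (Fin (n + 1) → Fin (2 + 1)) ≃ Fin (N + 1))
    (y : Fin (N + 1) → L) {c : L} (hc : c ≠ 0) (h : ∀ s, y (κ s) = c * ∏ i, co (P i) (s i)) :
    tdeg K y ≤ ((n + 1 : ℕ) : Cardinal.{u}) := by
  obtain ⟨F₀, hF₀⟩ : ∃ F₀, F₀ = IntermediateField.adjoin K (Set.range fun i => co (P i) 0) := ⟨_, rfl⟩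
  have h0 : Algebra.trdeg K F₀ ≤ ((n + 1 : ℕ) : Cardinal.{u}) := by
    rw [hF₀]
    exact DU_F0 fun i => co (P i) 0
  have hx : ∀ i, co (P i) 0 ∈ F₀ := fun i => by
    rw [hF₀]
    exact IntermediateField.subset_adjoin _ _ ⟨i, rfl⟩
  have hmem : ∀ z ∈ F₀, z ∈ algebraicClosure F₀ L := fun z hz =>
    (algebraicClosure F₀ L).algebraMap_mem ⟨z, hz⟩
  have hco : ∀ i j, co (P i) j ∈ algebraicClosure F₀ L := by
    intro i j
    have hxi := hx i
    revert hxi
    cases P i with
    | zero =>
      intro _
      fin_cases j
      · exact zero_mem _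
      · exact one_mem _
      · exact zero_mem _
    | some x y h1 =>
      intro hxi
      have h2 : y ^ 2 = x ^ 3 + algebraMap K L (a i) * x + algebraMap K L (b i) := eq_of_equation h1.1
      have hx1 : x ∈ F₀ := hxi
      fin_cases j
      · exact hmem _ hx1
      · show y ∈ algebraicClosure F₀ L
        rw [mem_algebraicClosure_iff']
        refine IsIntegral.of_pow (n := 2) two_pos ?_
        rw [← mem_algebraicClosure_iff', h2]
        exact hmem _ (add_mem (add_mem (pow_mem hx1 3) (mul_mem (F₀.algebraMap_mem _) hx1))
          (F₀.algebraMap_mem _))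
      · exact one_mem _
  have hle : ∀ z ∈ IntermediateField.adjoin K
      (Set.range fun p : Fin (N + 1) × Fin (N + 1) => y p.1 / y p.2), z ∈ algebraicClosure F₀ L := by
    have h1 : IntermediateField.adjoin K
        (Set.range fun p : Fin (N + 1) × Fin (N + 1) => y p.1 / y p.2) ≤
        (algebraicClosure F₀ L).restrictScalars K := by
      rw [IntermediateField.adjoin_le_iff]
      rintro _ ⟨p, rfl⟩
      show y p.1 / y p.2 ∈ algebraicClosure F₀ L
      have e1 := h (κ.symm p.1)
      have e2 := h (κ.symm p.2)
      rw [Equiv.apply_symm_apply] at e1 e2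
      rw [e1, e2, mul_div_mul_left _ _ hc]
      exact div_mem (prod_mem fun i _ => hco i _) (prod_mem fun i _ => hco i _)
    exact fun z hz => h1 hz
  have h1 : Algebra.trdeg K (algebraicClosure F₀ L) = Algebra.trdeg K F₀ := by
    have h2 : Algebra.trdeg F₀ (algebraicClosure F₀ L) = 0 := trdeg_eq_zero
    rw [← trdeg_add_eq K F₀ (A := algebraicClosure F₀ L), h2, add_zero]
  let f : IntermediateField.adjoin K
      (Set.range fun p : Fin (N + 1) × Fin (N + 1) => y p.1 / y p.2) →ₐ[K] algebraicClosure F₀ L :=
    { toFun := fun z => ⟨z, hle z z.2⟩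
      map_one' := rfl
      map_mul' := fun _ _ => rfl
      map_zero' := rfl
      map_add' := fun _ _ => rfl
      commutes' := fun _ => rfl }
  have hf : Function.Injective f := fun z w hzw =>
    Subtype.ext (congrArg (fun t : algebraicClosure F₀ L => (t : L)) hzw)
  unfold tdeg
  exact (trdeg_le_of_injective f hf).trans (h1.le.trans h0)

end Pool.Agent.Lib.MP_17a322_nt.EA
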