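import Pool.Agent.Lib.MP_17a322_ntEA.Pr
import Pool.Agent.Lib.MP_17a322_ntEA.DU
import Pool.Agent.Lib.MP_17a322_ntEA.DL

/-!
Products of elliptic curves as abelian varieties in projective space: every number of factors.
-/

set_option autoImplicit false

universe u

namespace Pool.Agent.Lib.MP_17a322_nt.EA

open Pool.Agent.Lib.MP_17a322_nt.VA

/-- A family of points is a pair: the first point, and the family of the others. -/
def consEP {K : Type u} [Field K] {n : ℕ} (a b : Fin (n + 2) → K) (L : Type u) [Field L]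
    [Algebra K L] : (∀ i, EP (a i) (b i) L) ≃+
      EP (a 0) (b 0) L × (∀ i : Fin (n + 1), EP (a i.succ) (b i.succ) L) where
  toFun P := (P 0, fun i => P i.succ)
  invFun P := Fin.cons P.1 P.2
  left_inv P := by
    funext i
    refine Fin.cases ?_ (fun j => ?_) i
    · rfl
    · rfl
  right_inv P := rfl
  map_add' _ _ := rfl

/-- A family with one member. -/
def oneEP {K : Type u} [Field K] (a b : Fin (0 + 1) → K) (L : Type u) [Field L]
    [Algebra K L] : (∀ i, EP (a i) (b i) L) ≃+ EP (a 0) (b 0) L where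
  toFun P := P 0
  invFun P := Fin.cases P fun j => Fin.elim0 j
  left_inv P := by
    funext i
    refine Fin.cases ?_ (fun j => Fin.elim0 j) i
    rfl
  right_inv P := rfl
  map_add' _ _ := rfl

/-- The index of the coordinates for one factor. -/
def oneIx : (Fin (0 + 1) → Fin (2 + 1)) ≃ Fin (2 + 1) where
  toFun s := s 0
  invFun x := fun _ => x
  left_inv s := by
    funext i
    refine Fin.cases ?_ (fun j => Fin.elim0 j) i
    rfl
  right_inv x := rfl

/-- The index of the coordinates of a product with one more factor. -/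
def consIx {n N : ℕ} (κ : (Fin (n + 1) → Fin (2 + 1)) ≃ Fin (N + 1)) :
    (Fin (n + 2) → Fin (2 + 1)) ≃ Fin (2 * N + 2 + N + 1) :=
  ((Fin.consEquiv fun _ : Fin (n + 2) => Fin (2 + 1)).symm.trans
    ((Equiv.refl _).prodCongr κ)).trans (pe 2 N)

theorem consIx_apply {n N : ℕ} (κ : (Fin (n + 1) → Fin (2 + 1)) ≃ Fin (N + 1))
    (s : Fin (n + 2) → Fin (2 + 1)) : consIx κ s = pe 2 N (s 0, κ fun i => s i.succ) :=
  rfl

theorem exists_prod {K : Type u} [Field K] (n : ℕ) : ∀ (a b : Fin (n + 1) → K)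
    (_ : ∀ i, (crv (a i) (b i)).Δ ≠ 0),
    ∃ (N : ℕ) (A : AV K N) (κ : (Fin (n + 1) → Fin (2 + 1)) ≃ Fin (N + 1))
      (e : ∀ (L : Type u) [Field L] [Algebra K L], (∀ i, EP (a i) (b i) L) ≃+ A.Pts L),
      ∀ (L : Type u) [Field L] [Algebra K L] (P : ∀ i, EP (a i) (b i) L), ∃ c : L, c ≠ 0 ∧
        ∀ s, A.x (e L P) (κ s) = c * ∏ i, co (P i) (s i) := by
  induction n with
  | zero =>
    intro a b h
    refine ⟨2, ecAV (h 0), oneIx,
      fun L _ _ => (oneEP a b L).trans (ecE (h 0) L), fun L _ _ P => ?_⟩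
    obtain ⟨c, hc, e⟩ := ecE_x (h 0) L (P 0)
    refine ⟨c, hc, fun s => ?_⟩
    rw [Fin.prod_univ_succ, Fin.prod_univ_zero, mul_one]
    exact e (s 0)
  | succ n ih =>
    intro a b h
    obtain ⟨N, A, κ, e, he⟩ := ih (fun i => a i.succ) (fun i => b i.succ) fun i => h i.succ
    refine ⟨2 * N + 2 + N, prodAV (ecAV (h 0)) A, consIx κ, fun L _ _ =>
      ((consEP a b L).trans ((ecE (h 0) L).prodCongr (e L))).trans (prE (ecAV (h 0)) A L),
      fun L _ _ P => ?_⟩
    obtain ⟨c, hc, f⟩ := prE_x (ecAV (h 0)) A L (ecE (h 0) L (P 0), e L fun i => P i.succ)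
    obtain ⟨c1, h1, f1⟩ := ecE_x (h 0) L (P 0)
    obtain ⟨c2, h2, f2⟩ := he L fun i => P i.succ
    refine ⟨c * c1 * c2, mul_ne_zero (mul_ne_zero hc h1) h2, fun s => ?_⟩
    refine (f _).trans ?_
    rw [consIx_apply]
    simp only [sg, Equiv.symm_apply_apply]
    rw [f1, f2, Fin.prod_univ_succ fun i => co (P i) (s i)]
    ring

/-- Products of elliptic curves are abelian varieties in projective space in our sense: for
`n + 1` elliptic curves `y² = x³ + a i x + b i` over a field `K` there are an abelian variety `A` in some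
`ℙ^N`, of dimension `n + 1`, and isomorphisms of groups between the families of points of the curves
(with Mathlib's group law) and the points of `A`, over every extension field of `K`, such that the
coordinates of the image of a family are proportional to the products of the coordinates of its
members (Segre embedding). -/
theorem exists_family {K : Type u} [Field K] {n : ℕ} {a b : Fin (n + 1) → K}
    (h : ∀ i, (crv (a i) (b i)).Δ ≠ 0) :
    ∃ (N : ℕ) (A : AV K N) (κ : (Fin (n + 1) → Fin (2 + 1)) ≃ Fin (N + 1))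
      (e : ∀ (L : Type u) [Field L] [Algebra K L], (∀ i, EP (a i) (b i) L) ≃+ A.Pts L),
      A.dimIs (n + 1) ∧
      ∀ (L : Type u) [Field L] [Algebra K L] (P : ∀ i, EP (a i) (b i) L), ∃ c : L, c ≠ 0 ∧
        ∀ s, A.x (e L P) (κ s) = c * ∏ i, co (P i) (s i) := by
  obtain ⟨N, A, κ, e, he⟩ := exists_prod n a b h
  have hup : ∀ (L : Type u) [Field L] [Algebra K L] (P : A.Pts L),
      tdeg K (A.x P) ≤ ((n + 1 : ℕ) : Cardinal.{u}) := by
    intro L _ _ P
    obtain ⟨Q, rfl⟩ := (e L).surjective P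
    obtain ⟨c, hc, f⟩ := he L Q
    exact tdeg_le Q κ _ hc f
  refine ⟨N, A, κ, e, ⟨hup, ?_⟩, he⟩
  obtain ⟨L, _, _, P, hP⟩ := exists_le_tdeg h
  obtain ⟨c, hc, f⟩ := he L P
  exact ⟨L, inferInstance, inferInstance, e L P, le_antisymm (hup L _) (hP N κ _ c hc f)⟩

end Pool.Agent.Lib.MP_17a322_nt.EA
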