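import Pool.Agent.Lib.MP_17a322_ntEA.Base

/-!
Construction of an abelian variety in projective space from a family of groups with bijections onto
the sets of points.
-/

set_option autoImplicit false

universe u

namespace Pool.Agent.Lib.MP_17a322_nt.EA

open MvPolynomial
open Pool.Agent.Lib.MP_17a322_nt.VA

section

variable {K : Type u} [Field K] {N : ℕ} (I : Ideal (MvPolynomial (Fin (N + 1)) K)) (hI : Hom I)
  (hp : GPrime I) (G : ∀ (L : Type u) [Field L] [Algebra K L], Type u)
  [inst : ∀ (L : Type u) [Field L] [Algebra K L], AddCommGroup (G L)]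
  (e : ∀ (L : Type u) [Field L] [Algebra K L], G L ≃ Pt I L)
  (hf : ∀ (L L' : Type u) [Field L] [Algebra K L] [Field L'] [Algebra K L'] (φ : L →ₐ[K] L')
    (P Q : G L) (P' Q' : G L'), IsImg φ (e L P) (e L' P') → IsImg φ (e L Q) (e L' Q') →
    IsImg φ (e L (P + Q)) (e L' (P' + Q')))
  (S : Fin (N + 1) → Fin (N + 1) → MvPolynomial (Fin (N + 1) ⊕ Fin (N + 1)) K)
  (hS : ∀ i j, Bih 2 2 (S i j))
  (hs : ∀ (L : Type u) [Field L] [Algebra K L] (P Q : G L), ∃ c : L, c ≠ 0 ∧ ∀ i j,
    aeval (Sum.elim (e L P).1.rep (e L Q).1.rep) (S i j) =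
      c * ((e L (P + Q)).1.rep i * (e L (P - Q)).1.rep j))

/-- The abelian variety given by the groups `G L` and the bijections `e L`. -/
noncomputable def mkAV : AV K N where
  I := I
  homog := hI
  prime := hp
  grp L _ _ := (e L).symm.addCommGroup
  functorial := by
    intro L L' _ _ _ _ φ P Q P' Q' hP hQ
    obtain ⟨p, rfl⟩ := (e L).surjective P
    obtain ⟨q, rfl⟩ := (e L).surjective Q
    obtain ⟨p', rfl⟩ := (e L').surjective P'
    obtain ⟨q', rfl⟩ := (e L').surjective Q'
    change IsImg φ (e L ((e L).symm (e L p) + (e L).symm (e L q)))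
      (e L' ((e L').symm (e L' p') + (e L').symm (e L' q')))
    simp only [Equiv.symm_apply_apply]
    exact hf L L' φ p q p' q' hP hQ
  S := S
  bihomog := hS
  spec := by
    intro L _ _ P Q
    obtain ⟨p, rfl⟩ := (e L).surjective P
    obtain ⟨q, rfl⟩ := (e L).surjective Q
    change ∃ c : L, c ≠ 0 ∧ ∀ i j, aeval (Sum.elim (e L p).1.rep (e L q).1.rep) (S i j) =
      c * ((e L ((e L).symm (e L p) + (e L).symm (e L q))).1.rep i *
        (e L ((e L).symm (e L p) - (e L).symm (e L q))).1.rep j)
    simp only [Equiv.symm_apply_apply]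
    exact hs L p q

/-- The isomorphism of groups onto the points. -/
noncomputable def mkE (L : Type u) [Field L] [Algebra K L] :
    G L ≃+ (mkAV I hI hp G e hf S hS hs).Pts L :=
  { e L with
    map_add' := by
      intro P Q
      change e L (P + Q) = e L ((e L).symm (e L P) + (e L).symm (e L Q))
      simp only [Equiv.symm_apply_apply] }

theorem mkE_apply (L : Type u) [Field L] [Algebra K L] (P : G L) :
    (mkE I hI hp G e hf S hS hs L P : Pt I L) = e L P :=
  rfl

end

end Pool.Agent.Lib.MP_17a322_nt.EA
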