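import Pool.Agent.Lib.MP_17a322_ntEA.Base

/-!
# P1: extension of scalars of an ideal, through linear forms

`Lam λ F` applies the `K`-linear form `λ : L → K` to the coefficients of `F`.

`coeff_Lam`: `coeff_sum`, `coeff_monomial`, `Finset.sum_ite_eq`; `λ 0 = 0` outside of the support.
`Lam_add`, `Lam_sum`: compare the coefficients. `Lam_map_mul`: compare the coefficients
(`coeff_mul`, `coeff_map`; `λ` is `K`-linear: `λ (algebraMap K L c * z) = c * λ z`, `Algebra.smul_def`).

`mem_map_iff`. Forwards: the set of the `F` such that `Lam λ F ∈ I` for all `λ` is closed under sums and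
multiples (`Submodule.span_induction` for `Ideal.map f I = Ideal.span (f '' I)`; or write `F` as a finite sum of
`p * map g`, `g ∈ I`, and use `Lam λ (map g * p) = g * Lam λ p`). Backwards: let `e : Basis ι K L`
(`Basis.ofVectorSpace`, `Module.Free.chooseBasis`), `λ_i = e.coord i`. With the finite set `s` of the
`i` such that `λ_i` does not vanish on some coefficient of `F`, one has
`F = ∑ i ∈ s, C (e i) * map (algebraMap K L) (Lam λ_i F)`: compare the coefficients
(`z = ∑ i, e.coord i z • e i`, `Basis.sum_repr`/`Basis.linearCombination_repr`); each term lies in `I.map _`.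
-/

set_option autoImplicit false

universe u

namespace Pool.Agent.Lib.MP_17a322_nt.EA

open MvPolynomial
open Pool.Agent.Lib.MP_17a322_nt.VA

/-- The linear form `l` applied to the coefficients of `F`. -/
noncomputable def Lam {σ : Type} {K L : Type u} [Field K] [Field L] [Algebra K L] (l : L →ₗ[K] K)
    (F : MvPolynomial σ L) : MvPolynomial σ K :=
  ∑ m ∈ F.support, monomial m (l (coeff m F))

theorem coeff_Lam {σ : Type} {K L : Type u} [Field K] [Field L] [Algebra K L] (l : L →ₗ[K] K)
    (F : MvPolynomial σ L) (m : σ →₀ ℕ) : coeff m (Lam l F) = l (coeff m F) := by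
  classical
  unfold Lam
  rw [coeff_sum]
  simp only [coeff_monomial]
  rw [Finset.sum_ite_eq']
  split_ifs with h
  · rfl
  · rw [notMem_support_iff.1 h, map_zero]

theorem Lam_add {σ : Type} {K L : Type u} [Field K] [Field L] [Algebra K L] (l : L →ₗ[K] K)
    (F G : MvPolynomial σ L) : Lam l (F + G) = Lam l F + Lam l G := by
  ext m
  rw [coeff_Lam, coeff_add, coeff_add, coeff_Lam, coeff_Lam, map_add]

theorem Lam_map_mul {σ : Type} {K L : Type u} [Field K] [Field L] [Algebra K L] (l : L →ₗ[K] K)
    (g : MvPolynomial σ K) (F : MvPolynomial σ L) :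
    Lam l (MvPolynomial.map (algebraMap K L) g * F) = g * Lam l F := by
  classical
  ext m
  rw [coeff_Lam, coeff_mul, coeff_mul, map_sum]
  refine Finset.sum_congr rfl fun x _ => ?_
  rw [coeff_map, ← Algebra.smul_def, map_smul, smul_eq_mul, coeff_Lam]

private theorem P1_zero {σ : Type} {K L : Type u} [Field K] [Field L] [Algebra K L] (l : L →ₗ[K] K) :
    Lam l (0 : MvPolynomial σ L) = 0 := by
  ext m
  rw [coeff_Lam, coeff_zero, coeff_zero, map_zero]

private theorem P1_fwd {σ : Type} {K L : Type u} [Field K] [Field L] [Algebra K L]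
    (I : Ideal (MvPolynomial σ K)) (F : MvPolynomial σ L)
    (hF : F ∈ I.map (MvPolynomial.map (σ := σ) (algebraMap K L))) :
    ∀ (q : MvPolynomial σ L) (l : L →ₗ[K] K), Lam l (q * F) ∈ I := by
  refine Submodule.span_induction (p := fun F _ => ∀ (q : MvPolynomial σ L) (l : L →ₗ[K] K),
    Lam l (q * F) ∈ I) ?_ ?_ ?_ ?_ hF
  · rintro _ ⟨g, hg, rfl⟩ q l
    rw [mul_comm, Lam_map_mul]
    exact I.mul_mem_right _ hg
  · intro q l
    rw [mul_zero, P1_zero]
    exact I.zero_mem
  · intro a b _ _ ha hb q l
    rw [mul_add, Lam_add]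
    exact I.add_mem (ha q l) (hb q l)
  · intro a b _ hb q l
    rw [smul_eq_mul, ← mul_assoc]
    exact hb (q * a) l

theorem mem_map_iff {σ : Type} {K L : Type u} [Field K] [Field L] [Algebra K L]
    (I : Ideal (MvPolynomial σ K)) (F : MvPolynomial σ L) :
    F ∈ I.map (MvPolynomial.map (σ := σ) (algebraMap K L)) ↔ ∀ l : L →ₗ[K] K, Lam l F ∈ I := by
  classical
  constructor
  · intro hF l
    have h := P1_fwd I F hF 1 l
    rwa [one_mul] at h
  · intro h
    obtain ⟨e⟩ : Nonempty (Module.Basis (Module.Free.ChooseBasisIndex K L) K L) :=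
      ⟨Module.Free.chooseBasis K L⟩
    obtain ⟨s, hs⟩ : ∃ s, s = F.support.biUnion fun m => (e.repr (coeff m F)).support := ⟨_, rfl⟩
    have hsub : ∀ m, (e.repr (coeff m F)).support ⊆ s := by
      intro m
      by_cases hm : m ∈ F.support
      · rw [hs]
        exact Finset.subset_biUnion_of_mem (fun m => (e.repr (coeff m F)).support) hm
      · rw [notMem_support_iff.1 hm, map_zero, Finsupp.support_zero]
        exact Finset.empty_subset _
    have hF : F = ∑ i ∈ s, C (e i) * MvPolynomial.map (algebraMap K L) (Lam (e.coord i) F) := by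
      ext m
      rw [coeff_sum]
      have h1 : coeff m F = (e.repr (coeff m F)).sum fun i c => c • e i := by
        rw [← Finsupp.linearCombination_apply, e.linearCombination_repr]
      conv_lhs => rw [h1]
      rw [Finsupp.sum_of_support_subset _ (hsub m) _ fun i _ => zero_smul K (e i)]
      refine Finset.sum_congr rfl fun i _ => ?_
      rw [coeff_C_mul, coeff_map, coeff_Lam, Algebra.smul_def, mul_comm]
      rfl
    rw [hF]
    refine Submodule.sum_mem _ fun i _ => ?_
    exact Ideal.mul_mem_left _ _ (Ideal.mem_map_of_mem _ (h _))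

end Pool.Agent.Lib.MP_17a322_nt.EA
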