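import Pool.Agent.Lib.MP_17a322_ntEA.Base
import Pool.Agent.Lib.MP_17a322_ntEA.P1

/-!
# P2: the ideal of the product and extension of scalars

`sgh_Lam`: both sides are additive in `F` (`Lam_add`); for a monomial `F = C z * ∏ X k ^ m k`
(`MvPolynomial.induction_on'` or `induction_on`): `Lam l (map g * C z) = g * Lam l (C z) = g * C (l z)`
by `Lam_map_mul`, with `g` the monomial over `K`; `sgh` sends it to `sgh g * C (l z)`, and
`map (sgh g) = sgh (map g)` (`MvPolynomial.map_aeval`, or compare the two homomorphisms on `C` and `X`).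

`JJ_map`: `Ideal.map_sup`, `Ideal.map_map`, and the equality of the homomorphisms
`(map (algebraMap K L)).comp (rename inl) = (rename inl).comp (map (algebraMap K L))`
(`MvPolynomial.map_rename`).

`pI_map`: `F ∈ (pI I J).map _` iff `Lam l F ∈ pI I J` for all `l` (`mem_map_iff`) iff
`sgh (Lam l F) = Lam l (sgh F) ∈ JJ I J` for all `l` (`sgh_Lam`) iff `sgh F ∈ (JJ I J).map _ = JJ _ _`
(`mem_map_iff`, `JJ_map`) iff `F ∈ pI _ _`.
-/

set_option autoImplicit false

universe u

namespace Pool.Agent.Lib.MP_17a322_nt.EA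

open MvPolynomial
open Pool.Agent.Lib.MP_17a322_nt.VA

private theorem P2_C {K L : Type u} [Field K] [Field L] [Algebra K L] {σ : Type} (l : L →ₗ[K] K)
    (z : L) : Lam l (C z : MvPolynomial σ L) = C (l z) := by
  classical
  ext m
  rw [coeff_Lam, coeff_C, coeff_C]
  split_ifs
  · rfl
  · exact map_zero l

private theorem P2_mono {K L : Type u} [Field K] [Field L] [Algebra K L] {σ : Type}
    (u : σ →₀ ℕ) (z : L) : (monomial u z : MvPolynomial σ L) =
      MvPolynomial.map (algebraMap K L) (monomial u (1 : K)) * C z := by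
  rw [map_monomial, map_one, mul_comm, C_mul_monomial, mul_one]

private theorem P2_map {K L : Type u} [Field K] [Field L] [Algebra K L] {N M : ℕ}
    (g : MvPolynomial (Fin (N * M + N + M + 1)) K) :
    sgh L N M (MvPolynomial.map (algebraMap K L) g) =
      MvPolynomial.map (algebraMap K L) (sgh K N M g) := by
  have h : (sgh L N M).toRingHom.comp (MvPolynomial.map (algebraMap K L)) =
      (MvPolynomial.map (algebraMap K L)).comp (sgh K N M).toRingHom := by
    apply MvPolynomial.ringHom_ext
    · intro c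
      simp [sgh]
    · intro k
      simp [sgh, sg]
  exact DFunLike.congr_fun h g

theorem sgh_Lam {K L : Type u} [Field K] [Field L] [Algebra K L] {N M : ℕ} (l : L →ₗ[K] K)
    (F : MvPolynomial (Fin (N * M + N + M + 1)) L) :
    sgh K N M (Lam l F) = Lam l (sgh L N M F) := by
  induction F using MvPolynomial.induction_on' with
  | monomial u z =>
    have h2 : sgh L N M (C z) = C z := by simp [sgh]
    have h3 : sgh K N M (C (l z)) = C (l z) := by simp [sgh]
    rw [P2_mono (K := K) u z, Lam_map_mul, P2_C, map_mul, map_mul, h2, h3, P2_map, Lam_map_mul, P2_C]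
  | add p q hp hq => rw [Lam_add, map_add, map_add, Lam_add, hp, hq]

theorem JJ_map {K : Type u} [Field K] {N M : ℕ} (I : Ideal (MvPolynomial (Fin (N + 1)) K))
    (J : Ideal (MvPolynomial (Fin (M + 1)) K)) (L : Type u) [Field L] [Algebra K L] :
    (JJ I J).map (MvPolynomial.map (σ := Fin (N + 1) ⊕ Fin (M + 1)) (algebraMap K L)) =
      JJ (I.map (MvPolynomial.map (σ := Fin (N + 1)) (algebraMap K L)))
        (J.map (MvPolynomial.map (σ := Fin (M + 1)) (algebraMap K L))) := by
  change (Ideal.map (rename Sum.inl :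
      MvPolynomial (Fin (N + 1)) K →ₐ[K] MvPolynomial (Fin (N + 1) ⊕ Fin (M + 1)) K).toRingHom I ⊔
      Ideal.map (rename Sum.inr :
      MvPolynomial (Fin (M + 1)) K →ₐ[K] MvPolynomial (Fin (N + 1) ⊕ Fin (M + 1)) K).toRingHom J).map
        (MvPolynomial.map (algebraMap K L)) =
    Ideal.map (rename Sum.inl :
      MvPolynomial (Fin (N + 1)) L →ₐ[L] MvPolynomial (Fin (N + 1) ⊕ Fin (M + 1)) L).toRingHom
      (I.map (MvPolynomial.map (algebraMap K L))) ⊔
    Ideal.map (rename Sum.inr :
      MvPolynomial (Fin (M + 1)) L →ₐ[L] MvPolynomial (Fin (N + 1) ⊕ Fin (M + 1)) L).toRingHom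
      (J.map (MvPolynomial.map (algebraMap K L)))
  rw [Ideal.map_sup, Ideal.map_map, Ideal.map_map, Ideal.map_map, Ideal.map_map]
  have h1 : (MvPolynomial.map (algebraMap K L)).comp (rename Sum.inl :
      MvPolynomial (Fin (N + 1)) K →ₐ[K] MvPolynomial (Fin (N + 1) ⊕ Fin (M + 1)) K).toRingHom =
      (rename Sum.inl : MvPolynomial (Fin (N + 1)) L →ₐ[L]
        MvPolynomial (Fin (N + 1) ⊕ Fin (M + 1)) L).toRingHom.comp
        (MvPolynomial.map (algebraMap K L)) :=
    RingHom.ext fun p => MvPolynomial.map_rename _ _ p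
  have h2 : (MvPolynomial.map (algebraMap K L)).comp (rename Sum.inr :
      MvPolynomial (Fin (M + 1)) K →ₐ[K] MvPolynomial (Fin (N + 1) ⊕ Fin (M + 1)) K).toRingHom =
      (rename Sum.inr : MvPolynomial (Fin (M + 1)) L →ₐ[L]
        MvPolynomial (Fin (N + 1) ⊕ Fin (M + 1)) L).toRingHom.comp
        (MvPolynomial.map (algebraMap K L)) :=
    RingHom.ext fun p => MvPolynomial.map_rename _ _ p
  rw [h1, h2]

theorem pI_map {K : Type u} [Field K] {N M : ℕ} (I : Ideal (MvPolynomial (Fin (N + 1)) K))
    (J : Ideal (MvPolynomial (Fin (M + 1)) K)) (L : Type u) [Field L] [Algebra K L] :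
    (pI I J).map (MvPolynomial.map (σ := Fin (N * M + N + M + 1)) (algebraMap K L)) =
      pI (I.map (MvPolynomial.map (σ := Fin (N + 1)) (algebraMap K L)))
        (J.map (MvPolynomial.map (σ := Fin (M + 1)) (algebraMap K L))) := by
  ext F
  rw [mem_map_iff]
  unfold pI
  rw [Ideal.mem_comap, ← JJ_map, mem_map_iff]
  refine forall_congr' fun l => ?_
  rw [Ideal.mem_comap, sgh_Lam]

end Pool.Agent.Lib.MP_17a322_nt.EA
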