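import Pool.Agent.Lib.MP_17a322_ntEA.Base

/-!
# P3: the ideal of the product is the kernel of a map to a tensor product

Let `A = MvPolynomial (Fin (N + 1)) K`, `B = MvPolynomial (Fin (M + 1)) K`. Mathlib:
`MvPolynomial.tensorEquivSum K (Fin (N + 1)) (Fin (M + 1)) K : A ⊗[K] B ≃ₐ[K] MvPolynomial (_ ⊕ _) K` sends
`X i ⊗ 1` to `X (inl i)` and `1 ⊗ X j` to `X (inr j)` (simp lemmas in
`Mathlib.RingTheory.TensorProduct.MvPolynomial`), and
`Algebra.TensorProduct.map_ker` (`Mathlib.LinearAlgebra.TensorProduct.RightExactness`): the kernel of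
`map f g : A ⊗ B → A/I ⊗ B/J` is `(ker f).map includeLeft ⊔ (ker g).map includeRight`, for `f`, `g` the quotient
maps (`Ideal.Quotient.mkₐ`, surjective; `Ideal.Quotient.mkₐ_ker`). Under the isomorphism `includeLeft`
corresponds to `rename inl` and `includeRight` to `rename inr`, so `JJ I J` corresponds to this kernel.
If the tensor product is a domain, the kernel is prime (`RingHom.ker_isPrime`), and so is `JJ I J`
(`Ideal.comap`/`Ideal.map` of a prime ideal under an isomorphism: it is the kernel of the composition of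
`map f g` with the inverse of the isomorphism).
-/

set_option autoImplicit false

universe u

namespace Pool.Agent.Lib.MP_17a322_nt.EA

open MvPolynomial
open Pool.Agent.Lib.MP_17a322_nt.VA
open scoped TensorProduct

theorem JJ_prime_of_domain {K : Type u} [Field K] {N M : ℕ}
    (I : Ideal (MvPolynomial (Fin (N + 1)) K)) (J : Ideal (MvPolynomial (Fin (M + 1)) K))
    (h : IsDomain (TensorProduct K (MvPolynomial (Fin (N + 1)) K ⧸ I)
      (MvPolynomial (Fin (M + 1)) K ⧸ J))) : (JJ I J).IsPrime := by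
  let q : MvPolynomial (Fin (N + 1) ⊕ Fin (M + 1)) K →ₐ[K]
      MvPolynomial (Fin (N + 1) ⊕ Fin (M + 1)) K ⧸ JJ I J := Ideal.Quotient.mkₐ K (JJ I J)
  let f : MvPolynomial (Fin (N + 1)) K ⧸ I →ₐ[K]
      MvPolynomial (Fin (N + 1) ⊕ Fin (M + 1)) K ⧸ JJ I J :=
    Ideal.Quotient.liftₐ I (q.comp (rename Sum.inl)) (fun a ha => by
      rw [AlgHom.comp_apply]
      exact Ideal.Quotient.eq_zero_iff_mem.2
        (Ideal.mem_sup_left (Ideal.mem_map_of_mem (rename Sum.inl) ha)))
  let g : MvPolynomial (Fin (M + 1)) K ⧸ J →ₐ[K]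
      MvPolynomial (Fin (N + 1) ⊕ Fin (M + 1)) K ⧸ JJ I J :=
    Ideal.Quotient.liftₐ J (q.comp (rename Sum.inr)) (fun a ha => by
      rw [AlgHom.comp_apply]
      exact Ideal.Quotient.eq_zero_iff_mem.2
        (Ideal.mem_sup_right (Ideal.mem_map_of_mem (rename Sum.inr) ha)))
  let ψ : TensorProduct K (MvPolynomial (Fin (N + 1)) K ⧸ I) (MvPolynomial (Fin (M + 1)) K ⧸ J) →ₐ[K]
      MvPolynomial (Fin (N + 1) ⊕ Fin (M + 1)) K ⧸ JJ I J :=
    Algebra.TensorProduct.lift f g (fun _ _ => Commute.all _ _)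
  let φ₁ : MvPolynomial (Fin (N + 1)) K →ₐ[K]
      TensorProduct K (MvPolynomial (Fin (N + 1)) K ⧸ I) (MvPolynomial (Fin (M + 1)) K ⧸ J) :=
    Algebra.TensorProduct.includeLeft.comp (Ideal.Quotient.mkₐ K I)
  let φ₂ : MvPolynomial (Fin (M + 1)) K →ₐ[K]
      TensorProduct K (MvPolynomial (Fin (N + 1)) K ⧸ I) (MvPolynomial (Fin (M + 1)) K ⧸ J) :=
    Algebra.TensorProduct.includeRight.comp (Ideal.Quotient.mkₐ K J)
  let φ : MvPolynomial (Fin (N + 1) ⊕ Fin (M + 1)) K →ₐ[K]
      TensorProduct K (MvPolynomial (Fin (N + 1)) K ⧸ I) (MvPolynomial (Fin (M + 1)) K ⧸ J) :=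
    aeval (Sum.elim (fun i => φ₁ (X i)) (fun j => φ₂ (X j)))
  have hl : φ.comp (rename Sum.inl) = φ₁ := by
    apply MvPolynomial.algHom_ext
    intro i
    simp [φ]
  have hr : φ.comp (rename Sum.inr) = φ₂ := by
    apply MvPolynomial.algHom_ext
    intro i
    simp [φ]
  have h1 : ψ.comp φ = q := by
    apply MvPolynomial.algHom_ext
    intro i
    rcases i with i | j
    · have e1 : φ (X (Sum.inl i)) = φ₁ (X i) := by simp [φ]
      have e2 : ψ (φ₁ (X i)) = f (Ideal.Quotient.mk I (X i)) := by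
        change Algebra.TensorProduct.lift f g _ (Ideal.Quotient.mk I (X i) ⊗ₜ[K] 1) = _
        rw [Algebra.TensorProduct.lift_tmul, map_one, mul_one]
      rw [AlgHom.comp_apply, e1, e2]
      change q (rename Sum.inl (X i)) = _
      rw [rename_X]
    · have e1 : φ (X (Sum.inr j)) = φ₂ (X j) := by simp [φ]
      have e2 : ψ (φ₂ (X j)) = g (Ideal.Quotient.mk J (X j)) := by
        change Algebra.TensorProduct.lift f g _ (1 ⊗ₜ[K] Ideal.Quotient.mk J (X j)) = _
        rw [Algebra.TensorProduct.lift_tmul, map_one, one_mul]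
      rw [AlgHom.comp_apply, e1, e2]
      change q (rename Sum.inr (X j)) = _
      rw [rename_X]
  have h2 : JJ I J = RingHom.ker φ := by
    apply le_antisymm
    · refine sup_le ?_ ?_
      · rw [Ideal.map_le_iff_le_comap]
        intro a ha
        rw [Ideal.mem_comap, RingHom.mem_ker]
        have := DFunLike.congr_fun hl a
        rw [AlgHom.comp_apply] at this
        rw [this]
        have e : Ideal.Quotient.mk I a = 0 := Ideal.Quotient.eq_zero_iff_mem.2 ha
        change Ideal.Quotient.mk I a ⊗ₜ[K] (1 : MvPolynomial (Fin (M + 1)) K ⧸ J) = 0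
        rw [e, TensorProduct.zero_tmul]
      · rw [Ideal.map_le_iff_le_comap]
        intro a ha
        rw [Ideal.mem_comap, RingHom.mem_ker]
        have := DFunLike.congr_fun hr a
        rw [AlgHom.comp_apply] at this
        rw [this]
        have e : Ideal.Quotient.mk J a = 0 := Ideal.Quotient.eq_zero_iff_mem.2 ha
        change (1 : MvPolynomial (Fin (N + 1)) K ⧸ I) ⊗ₜ[K] Ideal.Quotient.mk J a = 0
        rw [e, TensorProduct.tmul_zero]
    · intro x hx
      rw [RingHom.mem_ker] at hx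
      have := DFunLike.congr_fun h1 x
      rw [AlgHom.comp_apply, hx, map_zero] at this
      exact Ideal.Quotient.eq_zero_iff_mem.1 this.symm
  rw [h2]
  exact RingHom.ker_isPrime φ

end Pool.Agent.Lib.MP_17a322_nt.EA
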