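import Pool.Agent.Lib.MP_17a322_ntEA.Base

/-!
# P4: the tensor product with a geometrically prime quotient is a domain

`field_domain`: let `F` be an extension field of `K` and `B = MvPolynomial (Fin (M + 1)) K`. The ring
`F ⊗[K] (B ⧸ J)` is the quotient of `F ⊗[K] B` by the kernel of `Algebra.TensorProduct.map (AlgHom.id) (mkₐ)`,
that is, by `J.map includeRight` (`Algebra.TensorProduct.lTensor_ker`), and
`MvPolynomial.algebraTensorAlgEquiv K F : F ⊗[K] MvPolynomial σ K ≃ₐ[F] MvPolynomial σ F` sends
`1 ⊗ p` to `map (algebraMap K F) p` (`MvPolynomial.algebraTensorAlgEquiv_tmul`), so it sends this kernel to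
`J.map (map (algebraMap K F))`, which is prime by hypothesis. So `F ⊗[K] (B ⧸ J)` is isomorphic to the
quotient of `MvPolynomial σ F` by a prime ideal (`Ideal.quotientEquiv`, or: the kernel of the surjective
homomorphism `MvPolynomial σ F → F ⊗ (B ⧸ J)` is prime; `RingHom.quotientKerEquivOfSurjective`,
`MulEquiv.isDomain`/`RingEquiv.isDomain`).

`tensor_domain`: `D` a domain over `K`, `F = FractionRing D` (an algebra over `K` through `D`,
`IsScalarTower K D F`). Every `K`-module is flat, so `D ⊗[K] C → F ⊗[K] C` (`C = B ⧸ J`) is injective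
(`Module.Flat.rTensor_preserves_injective_linearMap`; the map is
`Algebra.TensorProduct.map (IsScalarTower.toAlgHom K D F) (AlgHom.id K C)`), and a subring of a domain is a
domain (`Function.Injective.isDomain`).
-/

set_option autoImplicit false

universe u

namespace Pool.Agent.Lib.MP_17a322_nt.EA

open MvPolynomial
open Pool.Agent.Lib.MP_17a322_nt.VA

private theorem P4_dom {A B : Type u} [CommRing A] [CommRing B] (f : A →+* B)
    (hf : Function.Surjective f) (h : (RingHom.ker f).IsPrime) : IsDomain B :=
  (RingHom.quotientKerEquivOfSurjective hf).symm.toMulEquiv.isDomain _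

private theorem P4_ker {K : Type u} [Field K] {C : Type u} [CommRing C] [Algebra K C] (J : Ideal C)
    (F : Type u) [CommRing F] [Algebra K F] (P : Type u) [CommRing P]
    (e : TensorProduct K F C ≃+* P) (g : C →+* P) (he : ∀ c : C, e (1 ⊗ₜ c) = g c)
    (hJ : (J.map g).IsPrime) : IsDomain (TensorProduct K F (C ⧸ J)) := by
  have hs : Function.Surjective (Ideal.Quotient.mkₐ K J) := Ideal.Quotient.mkₐ_surjective K J
  have hπ : Function.Surjective (Algebra.TensorProduct.map (AlgHom.id K F) (Ideal.Quotient.mkₐ K J)) :=
    TensorProduct.map_surjective Function.surjective_id hs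
  have h := Algebra.TensorProduct.lTensor_ker (A := F) (Ideal.Quotient.mkₐ K J) hs
  have h1 : RingHom.ker (Ideal.Quotient.mkₐ K J) = J := Ideal.Quotient.mkₐ_ker K J
  rw [h1] at h
  refine P4_dom (Algebra.TensorProduct.map (AlgHom.id K F) (Ideal.Quotient.mkₐ K J)).toRingHom hπ ?_
  have h2 : RingHom.ker (Algebra.TensorProduct.map (AlgHom.id K F) (Ideal.Quotient.mkₐ K J)).toRingHom =
      (J.map g).comap e := by
    have h3 : (J.map (Algebra.TensorProduct.includeRight : C →ₐ[K] TensorProduct K F C)).map e =
        J.map g := by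
      refine le_antisymm (Ideal.map_le_iff_le_comap.2 (Ideal.map_le_iff_le_comap.2 fun c hc => ?_))
        (Ideal.map_le_iff_le_comap.2 fun c hc => ?_)
      · change e (1 ⊗ₜ c) ∈ J.map g
        rw [he]
        exact Ideal.mem_map_of_mem _ hc
      · change g c ∈ (J.map (Algebra.TensorProduct.includeRight : C →ₐ[K] TensorProduct K F C)).map e
        rw [← he]
        exact Ideal.mem_map_of_mem e (Ideal.mem_map_of_mem
          (Algebra.TensorProduct.includeRight : C →ₐ[K] TensorProduct K F C) hc)
    rw [← h3, ← h]
    exact (Ideal.comap_map_of_bijective e e.bijective).symm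
  rw [h2]
  exact Ideal.comap_isPrime _ _

theorem field_domain {K : Type u} [Field K] {M : ℕ} {J : Ideal (MvPolynomial (Fin (M + 1)) K)}
    (F : Type u) [Field F] [Algebra K F]
    (hJ : (J.map (MvPolynomial.map (σ := Fin (M + 1)) (algebraMap K F))).IsPrime) :
    IsDomain (TensorProduct K F (MvPolynomial (Fin (M + 1)) K ⧸ J)) := by
  refine P4_ker J F (MvPolynomial (Fin (M + 1)) F)
    (MvPolynomial.algebraTensorAlgEquiv K F).toRingEquiv (MvPolynomial.map (algebraMap K F)) ?_ hJ
  intro c
  change MvPolynomial.algebraTensorAlgEquiv K F (1 ⊗ₜ c) = _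
  rw [MvPolynomial.algebraTensorAlgEquiv_tmul, one_smul]

theorem tensor_domain {K : Type u} [Field K] {M : ℕ} {J : Ideal (MvPolynomial (Fin (M + 1)) K)}
    (hJ : GPrime J) (D : Type u) [CommRing D] [IsDomain D] [Algebra K D] :
    IsDomain (TensorProduct K D (MvPolynomial (Fin (M + 1)) K ⧸ J)) := by
  have h0 := field_domain (J := J) (FractionRing D) (hJ (FractionRing D))
  have hi : Function.Injective (IsScalarTower.toAlgHom K D (FractionRing D)) :=
    IsFractionRing.injective D (FractionRing D)
  have hf : Function.Injective (Algebra.TensorProduct.map (IsScalarTower.toAlgHom K D (FractionRing D))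
      (AlgHom.id K (MvPolynomial (Fin (M + 1)) K ⧸ J))) :=
    Module.Flat.rTensor_preserves_injective_linearMap
      (IsScalarTower.toAlgHom K D (FractionRing D)).toLinearMap hi
  exact hf.isDomain _

end Pool.Agent.Lib.MP_17a322_nt.EA
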