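import Pool.Agent.Lib.MP_17a322_ntEA.Base
import Pool.Agent.Lib.MP_17a322_ntEA.P2
import Pool.Agent.Lib.MP_17a322_ntEA.P3
import Pool.Agent.Lib.MP_17a322_ntEA.P4

/-!
# P5: the ideal of the product is prime over every extension field

`gprime_self`: apply the hypothesis to `L = K`: `MvPolynomial.map (algebraMap K K)` is the identity
(`Algebra.algebraMap_self`, `MvPolynomial.map_id`, `Ideal.map_id`).

`gprime_base`: for an extension `L'` of `L` give `L'` the structure of `K`-algebra by composition
(`((algebraMap L L').comp (algebraMap K L)).toAlgebra`); `Ideal.map_map`, `MvPolynomial.map_comp_map`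
or `MvPolynomial.map_map`.

`JJ_prime`: `P3` and `tensor_domain` for `D = MvPolynomial (Fin (N + 1)) K ⧸ I`
(`Ideal.Quotient.isDomain`; `I` is prime by `gprime_self`).

`pI_gprime`: rewrite with `pI_map`; `pI` is the inverse image of the prime ideal `JJ` (`Ideal.comap_isPrime` /
`Ideal.IsPrime.comap`), which is prime by `JJ_prime` over `L` (with `gprime_base` for both ideals).
-/

set_option autoImplicit false

universe u

namespace Pool.Agent.Lib.MP_17a322_nt.EA

open MvPolynomial
open Pool.Agent.Lib.MP_17a322_nt.VA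

theorem gprime_self {K : Type u} [Field K] {N : ℕ} {I : Ideal (MvPolynomial (Fin (N + 1)) K)}
    (hI : GPrime I) : I.IsPrime := by
  have h := hI K
  have h1 : (MvPolynomial.map (σ := Fin (N + 1)) (algebraMap K K)) = RingHom.id _ := by
    apply RingHom.ext
    intro p
    rw [Algebra.algebraMap_self]
    exact MvPolynomial.map_id p
  rwa [h1, Ideal.map_id] at h

theorem gprime_base {K : Type u} [Field K] {N : ℕ} {I : Ideal (MvPolynomial (Fin (N + 1)) K)}
    (hI : GPrime I) (L : Type u) [Field L] [Algebra K L] :
    GPrime (I.map (MvPolynomial.map (σ := Fin (N + 1)) (algebraMap K L))) := by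
  intro L' _ _
  let _ : Algebra K L' := ((algebraMap L L').comp (algebraMap K L)).toAlgebra
  have h := hI L'
  have h1 : (MvPolynomial.map (σ := Fin (N + 1)) (algebraMap L L')).comp
      (MvPolynomial.map (σ := Fin (N + 1)) (algebraMap K L)) =
      MvPolynomial.map (σ := Fin (N + 1)) (algebraMap K L') := by
    apply MvPolynomial.ringHom_ext
    · intro r
      rw [RingHom.comp_apply, MvPolynomial.map_C, MvPolynomial.map_C, MvPolynomial.map_C]
      rfl
    · intro i
      rw [RingHom.comp_apply, MvPolynomial.map_X, MvPolynomial.map_X, MvPolynomial.map_X]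
  rw [Ideal.map_map, h1]
  exact h

theorem JJ_prime {K : Type u} [Field K] {N M : ℕ} {I : Ideal (MvPolynomial (Fin (N + 1)) K)}
    {J : Ideal (MvPolynomial (Fin (M + 1)) K)} (hI : GPrime I) (hJ : GPrime J) : (JJ I J).IsPrime := by
  have := gprime_self hI
  exact JJ_prime_of_domain I J (tensor_domain hJ (MvPolynomial (Fin (N + 1)) K ⧸ I))

theorem pI_gprime {K : Type u} [Field K] {N M : ℕ} {I : Ideal (MvPolynomial (Fin (N + 1)) K)}
    {J : Ideal (MvPolynomial (Fin (M + 1)) K)} (hI : GPrime I) (hJ : GPrime J) : GPrime (pI I J) := by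
  intro L _ _
  rw [pI_map]
  have := JJ_prime (gprime_base hI L) (gprime_base hJ L)
  exact Ideal.IsPrime.comap _

end Pool.Agent.Lib.MP_17a322_nt.EA
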