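import Pool.Agent.Lib.MP_17a322_ntEA.Base

/-!
# P6: the ideal of the product is homogeneous

`JJ_hom`: `JJ I J` is generated by the polynomials `rename inl f`, `f ∈ I`, and `rename inr g`, `g ∈ J`; since
`I` and `J` are homogeneous, it is generated by such polynomials with `f`, `g` homogeneous
(`f` is the sum of its components). An ideal generated by homogeneous polynomials is homogeneous
(`Ideal.homogeneous_span` for the grading `homogeneousSubmodule _ K`, with
`MvPolynomial.decomposition.decompose'_apply`; or directly: the set of the `f` with all components in `JJ I J` is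
closed under sums and multiples by monomials). `rename` and homogeneous polynomials:
`IsHomogeneous.rename_isHomogeneous`.

`sgh_component`: `f` is the sum of its homogeneous components `f_k`, `sgh f_k` is homogeneous of degree
`2 * k` (`IsHomogeneous.aeval`, each `sg (X ∘ inl) (X ∘ inr) k = X _ * X _` is homogeneous of degree 2), so
the component of degree `2 * d` of `sgh f` is `sgh f_d` (`homogeneousComponent_of_mem`).

`pI_hom`: `f ∈ pI I J` means `sgh f ∈ JJ I J`, so `sgh f_d = (sgh f)_(2 d) ∈ JJ I J`.
-/

set_option autoImplicit false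

universe u

namespace Pool.Agent.Lib.MP_17a322_nt.EA

open MvPolynomial
open Pool.Agent.Lib.MP_17a322_nt.VA

private theorem P6_hom_mul {K : Type u} [Field K] {σ : Type} {A : Ideal (MvPolynomial σ K)}
    {s : MvPolynomial σ K} {e : ℕ} (hs : s ∈ A) (he : s.IsHomogeneous e) (a : MvPolynomial σ K) (d : ℕ) :
    homogeneousComponent d (a * s) ∈ A := by
  rw [← sum_homogeneousComponent a, Finset.sum_mul, map_sum]
  refine A.sum_mem fun k _ => ?_
  rw [homogeneousComponent_of_mem ((homogeneousComponent_isHomogeneous k a).mul he)]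
  split_ifs
  · exact A.mul_mem_left _ hs
  · exact A.zero_mem

private theorem P6_mul {K : Type u} [Field K] {σ : Type} {A : Ideal (MvPolynomial σ K)}
    {s : MvPolynomial σ K} (hs : ∀ d, homogeneousComponent d s ∈ A) (a : MvPolynomial σ K) (d : ℕ) :
    homogeneousComponent d (a * s) ∈ A := by
  have h : a * s = ∑ k ∈ Finset.range (s.totalDegree + 1), a * homogeneousComponent k s := by
    rw [← Finset.mul_sum, sum_homogeneousComponent]
  rw [h, map_sum]
  exact A.sum_mem fun k _ => P6_hom_mul (hs k) (homogeneousComponent_isHomogeneous k s) a d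

private theorem P6_map {K : Type u} [Field K] {σ τ : Type} (φ : σ → τ) {I : Ideal (MvPolynomial σ K)}
    {A : Ideal (MvPolynomial τ K)} (hA : I.map (rename φ) ≤ A) (hI : ∀ f ∈ I, ∀ d, homogeneousComponent d f ∈ I)
    (f : MvPolynomial τ K) (hf : f ∈ I.map (rename φ)) : ∀ d, homogeneousComponent d f ∈ A := by
  unfold Ideal.map at hf
  induction hf using Submodule.span_induction with
  | mem x hx =>
    obtain ⟨g, hg, rfl⟩ := hx
    intro d
    rw [← rename_homogeneousComponent]
    exact hA (Ideal.mem_map_of_mem _ (hI g hg d))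
  | zero => intro d; rw [map_zero]; exact A.zero_mem
  | add x y _ _ hx hy => intro d; rw [map_add]; exact A.add_mem (hx d) (hy d)
  | smul a x _ hx => intro d; rw [smul_eq_mul]; exact P6_mul hx a d

theorem JJ_hom {K : Type u} [Field K] {N M : ℕ} {I : Ideal (MvPolynomial (Fin (N + 1)) K)}
    {J : Ideal (MvPolynomial (Fin (M + 1)) K)} (hI : Hom I) (hJ : Hom J) :
    ∀ f ∈ JJ I J, ∀ d, homogeneousComponent d f ∈ JJ I J := by
  intro f hf d
  obtain ⟨g, hg, h, hh, rfl⟩ := Submodule.mem_sup.1 hf
  rw [map_add]
  exact (JJ I J).add_mem (P6_map Sum.inl (A := JJ I J) le_sup_left hI g hg d)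
    (P6_map Sum.inr (A := JJ I J) le_sup_right hJ h hh d)

private theorem P6_sgh {K : Type u} [Field K] {N M : ℕ} {f : MvPolynomial (Fin (N * M + N + M + 1)) K}
    {k : ℕ} (hf : f.IsHomogeneous k) : (sgh K N M f).IsHomogeneous (2 * k) :=
  hf.aeval _ fun _ => (isHomogeneous_X K _).mul (isHomogeneous_X K _)

theorem sgh_component {K : Type u} [Field K] {N M : ℕ}
    (f : MvPolynomial (Fin (N * M + N + M + 1)) K) (d : ℕ) :
    homogeneousComponent (2 * d) (sgh K N M f) = sgh K N M (homogeneousComponent d f) := by
  conv_lhs => rw [← sum_homogeneousComponent f]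
  rw [map_sum, map_sum]
  have h1 : ∀ k, homogeneousComponent (2 * d) (sgh K N M (homogeneousComponent k f)) =
      if d = k then sgh K N M (homogeneousComponent k f) else 0 := by
    intro k
    rw [homogeneousComponent_of_mem (P6_sgh (homogeneousComponent_isHomogeneous k f))]
    by_cases h : d = k
    · rw [if_pos h, if_pos (by rw [h])]
    · rw [if_neg h, if_neg (by omega)]
  rw [Finset.sum_congr rfl fun k _ => h1 k, Finset.sum_ite_eq]
  split_ifs with h
  · rfl
  · rw [Finset.mem_range, not_lt] at h
    rw [homogeneousComponent_eq_zero d f (by omega), map_zero]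

theorem pI_hom {K : Type u} [Field K] {N M : ℕ} {I : Ideal (MvPolynomial (Fin (N + 1)) K)}
    {J : Ideal (MvPolynomial (Fin (M + 1)) K)} (hI : Hom I) (hJ : Hom J) : Hom (pI I J) := by
  intro f hf d
  change sgh K N M (homogeneousComponent d f) ∈ JJ I J
  rw [← sgh_component]
  exact JJ_hom hI hJ _ hf _

end Pool.Agent.Lib.MP_17a322_nt.EA
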