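import Pool.Agent.Lib.MP_17a322_ntEA.Base

/-!
# P7: the Segre embedding is injective, and homomorphisms of fields

`isImg_id`: `Projectivization.mk_rep` and `Projectivization.mk_eq_mk_iff'`.

`sg_prop`: if `sg x y` and `sg x' y'` are proportional, with all four vectors nonzero, so are `x` and
`x'`, and `y` and `y'`: choose `j` with `y j ≠ 0`; at the index `pe N M (i, j)` the hypothesis says
`x i * y j = c * (x' i * y' j)`, so `x = (c * y' j / y j) • x'`, where `y' j ≠ 0` since `x ≠ 0`. The same for `y`.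

`isImg_sgPt`: with `sgPt_rep`; forwards by `sg_prop` (for the vectors `φ ∘ p.1.rep` and so on,
`sg (φ ∘ x) (φ ∘ y) = φ ∘ sg x y`, and `φ` is injective, so `φ ∘ x ≠ 0`), backwards direct.

`sgPt_inj`: `isImg_sgPt` for the identity (`AlgHom.id K L`) and `isImg_id`.
-/

set_option autoImplicit false

universe u

namespace Pool.Agent.Lib.MP_17a322_nt.EA

open MvPolynomial
open Pool.Agent.Lib.MP_17a322_nt.VA

theorem isImg_id {K : Type u} [Field K] {N : ℕ} {I : Ideal (MvPolynomial (Fin (N + 1)) K)}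
    {L : Type u} [Field L] [Algebra K L] (p q : Pt I L) : IsImg (AlgHom.id K L) p q ↔ p = q := by
  constructor
  · rintro ⟨c, hc, h⟩
    apply Subtype.ext
    rw [← Projectivization.mk_rep p.1, ← Projectivization.mk_rep q.1, Projectivization.mk_eq_mk_iff']
    refine ⟨c, ?_⟩
    funext i
    rw [Pi.smul_apply, smul_eq_mul]
    exact (h i).symm
  · rintro rfl
    refine ⟨1, one_ne_zero, fun i => ?_⟩
    rw [one_mul]
    rfl

theorem sg_prop {L : Type u} [Field L] {N M : ℕ} {x x' : Fin (N + 1) → L} {y y' : Fin (M + 1) → L}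
    (hx : x ≠ 0) (hy : y ≠ 0) {c : L} (hc : c ≠ 0) (h : ∀ k, sg x y k = c * sg x' y' k) :
    (∃ s : L, s ≠ 0 ∧ ∀ i, x i = s * x' i) ∧ ∃ t : L, t ≠ 0 ∧ ∀ j, y j = t * y' j := by
  obtain ⟨i₀, hi⟩ := Function.ne_iff.1 hx
  obtain ⟨j₀, hj⟩ := Function.ne_iff.1 hy
  rw [Pi.zero_apply] at hi hj
  have key : ∀ i j, x i * y j = c * (x' i * y' j) := by
    intro i j
    have h1 := h (pe N M (i, j))
    simp only [sg, Equiv.symm_apply_apply] at h1
    exact h1
  have h0 : x' i₀ ≠ 0 ∧ y' j₀ ≠ 0 := by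
    have h1 : c * (x' i₀ * y' j₀) ≠ 0 := by
      rw [← key]
      exact mul_ne_zero hi hj
    have h2 := right_ne_zero_of_mul h1
    exact ⟨left_ne_zero_of_mul h2, right_ne_zero_of_mul h2⟩
  refine ⟨⟨c * y' j₀ / y j₀, div_ne_zero (mul_ne_zero hc h0.2) hj, fun i => ?_⟩,
    ⟨c * x' i₀ / x i₀, div_ne_zero (mul_ne_zero hc h0.1) hi, fun j => ?_⟩⟩
  · rw [div_mul_eq_mul_div, eq_div_iff hj, key]
    ring
  · rw [div_mul_eq_mul_div, eq_div_iff hi, mul_comm, key]
    ring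

theorem isImg_sgPt {K : Type u} [Field K] {N M : ℕ} {I : Ideal (MvPolynomial (Fin (N + 1)) K)}
    {J : Ideal (MvPolynomial (Fin (M + 1)) K)} (hI : Hom I) {L L' : Type u} [Field L] [Algebra K L]
    [Field L'] [Algebra K L'] (φ : L →ₐ[K] L') (p : Pt I L) (q : Pt J L) (p' : Pt I L')
    (q' : Pt J L') : IsImg φ (sgPt hI p q) (sgPt hI p' q') ↔ IsImg φ p p' ∧ IsImg φ q q' := by
  obtain ⟨c₁, hc₁, h₁⟩ := sgPt_rep hI p q
  obtain ⟨c₂, hc₂, h₂⟩ := sgPt_rep hI p' q'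
  have hφ : φ c₁ ≠ 0 := (map_ne_zero φ).2 hc₁
  constructor
  · rintro ⟨c, hc, h⟩
    have hp : (fun i => φ (p.1.rep i)) ≠ 0 := by
      intro h0
      apply p.1.rep_nonzero
      funext i
      exact (map_eq_zero φ).1 (congrFun h0 i)
    have hq : (fun i => φ (q.1.rep i)) ≠ 0 := by
      intro h0
      apply q.1.rep_nonzero
      funext i
      exact (map_eq_zero φ).1 (congrFun h0 i)
    have h3 : ∀ k, sg (fun i => φ (p.1.rep i)) (fun i => φ (q.1.rep i)) k =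
        (c * c₂ / φ c₁) * sg p'.1.rep q'.1.rep k := by
      intro k
      have h4 := h k
      rw [h₁, h₂, map_mul] at h4
      rw [div_mul_eq_mul_div, eq_div_iff hφ]
      have h5 : sg (fun i => φ (p.1.rep i)) (fun i => φ (q.1.rep i)) k = φ (sg p.1.rep q.1.rep k) := by
        simp only [sg, map_mul]
      rw [h5, mul_comm, h4]
      ring
    obtain ⟨⟨s, hs, h6⟩, ⟨t, ht, h7⟩⟩ := sg_prop hp hq (div_ne_zero (mul_ne_zero hc hc₂) hφ) h3
    exact ⟨⟨s, hs, h6⟩, ⟨t, ht, h7⟩⟩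
  · rintro ⟨⟨s, hs, h6⟩, ⟨t, ht, h7⟩⟩
    refine ⟨φ c₁ * s * t / c₂, div_ne_zero (mul_ne_zero (mul_ne_zero hφ hs) ht) hc₂, fun k => ?_⟩
    rw [h₁, h₂, map_mul]
    simp only [sg, map_mul, h6, h7]
    field_simp

theorem sgPt_inj {K : Type u} [Field K] {N M : ℕ} {I : Ideal (MvPolynomial (Fin (N + 1)) K)}
    {J : Ideal (MvPolynomial (Fin (M + 1)) K)} (hI : Hom I) {L : Type u} [Field L] [Algebra K L]
    {p p' : Pt I L} {q q' : Pt J L} (h : sgPt hI p q = sgPt hI p' q') : p = p' ∧ q = q' := by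
  have h1 := (isImg_sgPt hI (AlgHom.id K L) p q p' q').1 ((isImg_id _ _).2 h)
  exact ⟨(isImg_id _ _).1 h1.1, (isImg_id _ _).1 h1.2⟩

end Pool.Agent.Lib.MP_17a322_nt.EA
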