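import Pool.Agent.Lib.MP_17a322_ntEA.Base

/-!
# P8: the Segre embedding is surjective onto the points of `pI I J`

Let `r` be a point of `pI I J` and `z = r.1.rep`, `z_ij = z (pe N M (i, j))`. The polynomial
`X (i, j) X (k, l) - X (i, l) X (k, j)` has image `0` under `sgh`, so it lies in `pI I J` and
`z_ij z_kl = z_il z_kj`. Choose `(i₀, j₀)` with `z_(i₀ j₀) ≠ 0` and put `x i = z_(i j₀)`, `y j = z_(i₀ j)`:
`z_(i₀ j₀) z_ij = x i * y j`. Claim: `aeval x f = 0` for `f ∈ I`. By `hI` (and
`sum_homogeneousComponent`) `f` may be taken homogeneous of degree `d`; let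
`F = aeval (fun i => X (pe N M (i, j₀))) f`. Then `sgh F = (X (inr j₀)) ^ d * rename inl f` (by
`aeval_smul_hom` for the vector `X (inr j₀) • (X ∘ inl)`, and `aeval (X ∘ inl) f = rename inl f`), which lies in
`JJ I J`, so `F ∈ pI I J` and `0 = aeval z F = aeval x f`. The same for `J` and `y`. So the points
`p = (x)` and `q = (y)` are in `Pt I L` and `Pt J L` (the coordinates `rep` are multiples of `x`, `y`:
`vanish_smul`), and `sgPt hI p q = r` since the coordinates are proportional
(`sgPt_rep`, `Projectivization.mk_rep`, `Projectivization.mk_eq_mk_iff'`).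
-/

set_option autoImplicit false

universe u

namespace Pool.Agent.Lib.MP_17a322_nt.EA

open MvPolynomial
open Pool.Agent.Lib.MP_17a322_nt.VA

private theorem P8_left {K : Type u} [Field K] {N M : ℕ} {I : Ideal (MvPolynomial (Fin (N + 1)) K)}
    {J : Ideal (MvPolynomial (Fin (M + 1)) K)} (hI : Hom I) {L : Type u} [Field L] [Algebra K L]
    {z : Fin (N * M + N + M + 1) → L} (hz : ∀ f ∈ pI I J, aeval z f = 0) (j₀ : Fin (M + 1)) :
    ∀ f ∈ I, aeval (fun i => z (pe N M (i, j₀))) f = 0 := by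
  intro f hf
  rw [← sum_homogeneousComponent f, map_sum]
  refine Finset.sum_eq_zero fun d _ => ?_
  have hg : homogeneousComponent d f ∈ I := hI f hf d
  have hgh : (homogeneousComponent d f).IsHomogeneous d := homogeneousComponent_isHomogeneous d f
  generalize homogeneousComponent d f = g at hg hgh
  have hF : rename (fun i => pe N M (i, j₀)) g ∈ pI I J := by
    show sgh K N M (rename (fun i => pe N M (i, j₀)) g) ∈ JJ I J
    have e : sgh K N M (rename (fun i => pe N M (i, j₀)) g) =
        (X (Sum.inr j₀)) ^ d * rename Sum.inl g := by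
      rw [sgh, aeval_rename]
      have h1 : (sg (fun i => X (Sum.inl i)) (fun j => X (Sum.inr j)) :
          Fin (N * M + N + M + 1) → MvPolynomial (Fin (N + 1) ⊕ Fin (M + 1)) K) ∘
          (fun i => pe N M (i, j₀)) = (X (Sum.inr j₀) : MvPolynomial (Fin (N + 1) ⊕ Fin (M + 1)) K) •
          (fun i => (X (Sum.inl i) : MvPolynomial (Fin (N + 1) ⊕ Fin (M + 1)) K)) := by
        funext i
        simp only [sg, Function.comp_apply, Equiv.symm_apply_apply, Pi.smul_apply, smul_eq_mul]
        ring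
      have h2 : (aeval (fun i => (X (Sum.inl i) : MvPolynomial (Fin (N + 1) ⊕ Fin (M + 1)) K)) :
          MvPolynomial (Fin (N + 1)) K →ₐ[K] MvPolynomial (Fin (N + 1) ⊕ Fin (M + 1)) K) =
          rename Sum.inl := by
        apply MvPolynomial.algHom_ext
        intro i
        rw [aeval_X, rename_X]
      rw [h1, aeval_smul_hom hgh, h2]
    rw [e]
    exact Ideal.mul_mem_left _ _ (Ideal.mem_sup_left (Ideal.mem_map_of_mem _ hg))
  have h1 := hz _ hF
  rw [aeval_rename] at h1
  exact h1

private theorem P8_right {K : Type u} [Field K] {N M : ℕ} {I : Ideal (MvPolynomial (Fin (N + 1)) K)}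
    {J : Ideal (MvPolynomial (Fin (M + 1)) K)} (hJ : Hom J) {L : Type u} [Field L] [Algebra K L]
    {z : Fin (N * M + N + M + 1) → L} (hz : ∀ f ∈ pI I J, aeval z f = 0) (i₀ : Fin (N + 1)) :
    ∀ f ∈ J, aeval (fun j => z (pe N M (i₀, j))) f = 0 := by
  intro f hf
  rw [← sum_homogeneousComponent f, map_sum]
  refine Finset.sum_eq_zero fun d _ => ?_
  have hg : homogeneousComponent d f ∈ J := hJ f hf d
  have hgh : (homogeneousComponent d f).IsHomogeneous d := homogeneousComponent_isHomogeneous d f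
  generalize homogeneousComponent d f = g at hg hgh
  have hF : rename (fun j => pe N M (i₀, j)) g ∈ pI I J := by
    show sgh K N M (rename (fun j => pe N M (i₀, j)) g) ∈ JJ I J
    have e : sgh K N M (rename (fun j => pe N M (i₀, j)) g) =
        (X (Sum.inl i₀)) ^ d * rename Sum.inr g := by
      rw [sgh, aeval_rename]
      have h1 : (sg (fun i => X (Sum.inl i)) (fun j => X (Sum.inr j)) :
          Fin (N * M + N + M + 1) → MvPolynomial (Fin (N + 1) ⊕ Fin (M + 1)) K) ∘
          (fun j => pe N M (i₀, j)) = (X (Sum.inl i₀) : MvPolynomial (Fin (N + 1) ⊕ Fin (M + 1)) K) •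
          (fun j => (X (Sum.inr j) : MvPolynomial (Fin (N + 1) ⊕ Fin (M + 1)) K)) := by
        funext i
        simp only [sg, Function.comp_apply, Equiv.symm_apply_apply, Pi.smul_apply, smul_eq_mul]
      have h2 : (aeval (fun j => (X (Sum.inr j) : MvPolynomial (Fin (N + 1) ⊕ Fin (M + 1)) K)) :
          MvPolynomial (Fin (M + 1)) K →ₐ[K] MvPolynomial (Fin (N + 1) ⊕ Fin (M + 1)) K) =
          rename Sum.inr := by
        apply MvPolynomial.algHom_ext
        intro j
        rw [aeval_X, rename_X]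
      rw [h1, aeval_smul_hom hgh, h2]
    rw [e]
    exact Ideal.mul_mem_left _ _ (Ideal.mem_sup_right (Ideal.mem_map_of_mem _ hg))
  have h1 := hz _ hF
  rw [aeval_rename] at h1
  exact h1

private theorem P8_rel {K : Type u} [Field K] {N M : ℕ} {I : Ideal (MvPolynomial (Fin (N + 1)) K)}
    {J : Ideal (MvPolynomial (Fin (M + 1)) K)} {L : Type u} [Field L] [Algebra K L]
    {z : Fin (N * M + N + M + 1) → L} (hz : ∀ f ∈ pI I J, aeval z f = 0) (i k : Fin (N + 1))
    (j l : Fin (M + 1)) : z (pe N M (i, j)) * z (pe N M (k, l)) =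
      z (pe N M (i, l)) * z (pe N M (k, j)) := by
  have hF : (X (pe N M (i, j)) * X (pe N M (k, l)) - X (pe N M (i, l)) * X (pe N M (k, j)) :
      MvPolynomial (Fin (N * M + N + M + 1)) K) ∈ pI I J := by
    show sgh K N M _ ∈ JJ I J
    have e : sgh K N M (X (pe N M (i, j)) * X (pe N M (k, l)) -
        X (pe N M (i, l)) * X (pe N M (k, j))) = 0 := by
      simp only [sgh, map_sub, map_mul, aeval_X, sg, Equiv.symm_apply_apply]
      ring
    rw [e]
    exact zero_mem _
  have h1 := hz _ hF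
  simp only [map_sub, map_mul, aeval_X] at h1
  exact sub_eq_zero.1 h1

theorem sgPt_surj {K : Type u} [Field K] {N M : ℕ} {I : Ideal (MvPolynomial (Fin (N + 1)) K)}
    {J : Ideal (MvPolynomial (Fin (M + 1)) K)} (hI : Hom I) (hJ : Hom J) {L : Type u} [Field L]
    [Algebra K L] (r : Pt (pI I J) L) : ∃ (p : Pt I L) (q : Pt J L), sgPt hI p q = r := by
  obtain ⟨z, hzd⟩ : ∃ z : Fin (N * M + N + M + 1) → L, z = r.1.rep := ⟨_, rfl⟩
  have hz : ∀ f ∈ pI I J, aeval z f = 0 := by
    rw [hzd]
    exact r.2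
  have hz0 : z ≠ 0 := by
    rw [hzd]
    exact r.1.rep_nonzero
  obtain ⟨k₀, hk₀⟩ := Function.ne_iff.1 hz0
  obtain ⟨⟨i₀, j₀⟩, hij⟩ := (pe N M).surjective k₀
  rw [← hij] at hk₀
  have hx0 : (fun i => z (pe N M (i, j₀))) ≠ 0 := fun h => hk₀ (congrFun h i₀)
  have hy0 : (fun j => z (pe N M (i₀, j))) ≠ 0 := fun h => hk₀ (congrFun h j₀)
  obtain ⟨a, ha⟩ := Projectivization.exists_smul_eq_mk_rep L _ hx0
  obtain ⟨b, hb⟩ := Projectivization.exists_smul_eq_mk_rep L _ hy0
  refine ⟨⟨Projectivization.mk L _ hx0, ?_⟩, ⟨Projectivization.mk L _ hy0, ?_⟩, ?_⟩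
  · rw [← ha]
    exact vanish_smul hI (P8_left hI hz j₀) _
  · rw [← hb]
    exact vanish_smul hJ (P8_right hJ hz i₀) _
  · apply Subtype.ext
    rw [← Projectivization.mk_rep r.1]
    refine (Projectivization.mk_eq_mk_iff' L _ _ _ _).2
      ⟨(a : L) * (b : L) * z (pe N M (i₀, j₀)), ?_⟩
    show ((a : L) * (b : L) * z (pe N M (i₀, j₀))) • r.1.rep =
      sg (Projectivization.mk L _ hx0).rep (Projectivization.mk L _ hy0).rep
    rw [← ha, ← hb, ← hzd]
    funext k
    obtain ⟨⟨i, j⟩, rfl⟩ := (pe N M).surjective k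
    simp only [sg, Pi.smul_apply, smul_eq_mul, Units.smul_def, Equiv.symm_apply_apply]
    linear_combination (a : L) * (b : L) * P8_rel hz i₀ i j₀ j

end Pool.Agent.Lib.MP_17a322_nt.EA
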