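import Pool.Agent.Lib.MP_17a322_ntEA.Base

/-!
# P9: lifting products of two forms of bidegree (2, 2) to the Segre embedding

`f (x, x')` of bidegree `(2, 2)`, `g (y, y')` of bidegree `(2, 2)`: the product is the value of a form `h` of
bidegree `(2, 2)` at `(sg x y, sg x' y')`.

`pow_two_split`: a monomial of degree 2 is a product of two variables: if `∑ i, u i = 2`, there are
`i`, `j` with `∏ k, x k ^ u k = x i * x j` for all `x` (choose `i` with `u i ≠ 0`, then `j` with
`(u - single i 1) j ≠ 0`; or `u = single i 1 + single j 1`).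

`exists_lift`: both sides are bilinear in `(f, g)`: `f` is the sum of its monomials (`MvPolynomial.as_sum`,
`support_sum_monomial_coeff`), and the claim for `f` and `g` follows by summation over the pairs of monomials from
the case of two monomials `C α * ∏ ..`, `C β * ∏ ..` of bidegree `(2, 2)`; by `pow_two_split` (four times)
`f = α x_i x_j x'_k x'_l`, `g = β y_m y_n y'_r y'_s`, and
`h = C (α β) * X (inl (i, m)) * X (inl (j, n)) * X (inr (k, r)) * X (inr (l, s))`, with `(i, m)` for `pe N M (i, m)`: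
`sg x y (pe N M (i, m)) = x i * y m`. `Bih 2 2 h`: the support of the monomial is one exponent; the set of the
polynomials `h` with `Bih 2 2 h` is closed under sums (`support_add`, `support_sum`).
Suggestion: prove first the statement for `Bih` and sums over finite sets as a lemma.
-/

set_option autoImplicit false

universe u

namespace Pool.Agent.Lib.MP_17a322_nt.EA

open MvPolynomial
open Pool.Agent.Lib.MP_17a322_nt.VA
open Pool.Agent.Lib.MP_17a322_nt.VA

private theorem P9_split {n : ℕ} (u : Fin n → ℕ) (hu : ∑ i, u i = 2) :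
    ∃ i j : Fin n, u = Pi.single i 1 + Pi.single j 1 := by
  classical
  have h0 : ∃ i, u i ≠ 0 := by
    by_contra h
    push Not at h
    rw [Finset.sum_eq_zero fun i _ => h i] at hu
    omega
  obtain ⟨i, hi⟩ := h0
  let v : Fin n → ℕ := fun k => u k - (Pi.single i 1 : Fin n → ℕ) k
  have hv : ∀ k, u k = (Pi.single i 1 : Fin n → ℕ) k + v k := fun k => by
    by_cases h : k = i
    · subst h
      simp only [v, Pi.single_eq_same]
      omega
    · simp [v, Pi.single_eq_of_ne h]
  have hs : ∑ k, v k = 1 := by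
    have h1 : ∑ k, u k = ∑ k, (Pi.single i 1 : Fin n → ℕ) k + ∑ k, v k := by
      rw [← Finset.sum_add_distrib]
      exact Finset.sum_congr rfl fun k _ => hv k
    rw [Finset.sum_pi_single'] at h1
    simp at h1
    omega
  have h1 : ∃ j, v j ≠ 0 := by
    by_contra h
    push Not at h
    rw [Finset.sum_eq_zero fun i _ => h i] at hs
    omega
  obtain ⟨j, hj⟩ := h1
  refine ⟨i, j, ?_⟩
  have hz : ∀ k, v k = (Pi.single j 1 : Fin n → ℕ) k := by
    have h2 : v j + ∑ k ∈ Finset.univ.erase j, v k = 1 := by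
      rw [Finset.add_sum_erase _ _ (Finset.mem_univ j)]
      exact hs
    have h3 : ∑ k ∈ Finset.univ.erase j, v k = 0 := by omega
    intro k
    by_cases h : k = j
    · subst h
      rw [Pi.single_eq_same]
      omega
    · rw [Pi.single_eq_of_ne h]
      exact Finset.sum_eq_zero_iff.1 h3 k (Finset.mem_erase.2 ⟨h, Finset.mem_univ k⟩)
  funext k
  rw [hv k, hz k]
  rfl

theorem pow_two_split {n : ℕ} (u : Fin n → ℕ) (hu : ∑ i, u i = 2) :
    ∃ i j : Fin n, ∀ (R : Type u) [CommRing R] (x : Fin n → R), ∏ k, x k ^ u k = x i * x j := by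
  classical
  obtain ⟨i, j, h⟩ := P9_split u hu
  refine ⟨i, j, fun R _ x => ?_⟩
  have h1 : ∀ l : Fin n, ∏ k, x k ^ (Pi.single l 1 : Fin n → ℕ) k = x l := fun l => by
    rw [Finset.prod_eq_single l]
    · rw [Pi.single_eq_same, pow_one]
    · intro k _ hk
      rw [Pi.single_eq_of_ne hk, pow_zero]
    · intro h
      exact absurd (Finset.mem_univ l) h
  rw [h]
  simp only [Pi.add_apply, pow_add]
  rw [Finset.prod_mul_distrib, h1, h1]

private theorem P9_mono {K : Type u} [Field K] {N : ℕ} {m : Fin (N + 1) ⊕ Fin (N + 1) →₀ ℕ}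
    (hm : ∑ i, m (Sum.inl i) = 2 ∧ ∑ i, m (Sum.inr i) = 2) :
    ∃ i j k l : Fin (N + 1), ∀ (R : Type u) [CommRing R] [Algebra K R] (c : K) (x x' : Fin (N + 1) → R),
      aeval (Sum.elim x x') (monomial m c) = algebraMap K R c * (x i * x j * (x' k * x' l)) := by
  classical
  obtain ⟨i, j, h1⟩ := pow_two_split (fun i => m (Sum.inl i)) hm.1
  obtain ⟨k, l, h2⟩ := pow_two_split (fun i => m (Sum.inr i)) hm.2
  refine ⟨i, j, k, l, fun R _ _ c x x' => ?_⟩
  rw [aeval_monomial, Finsupp.prod_fintype _ _ (fun _ => pow_zero _), Fintype.prod_sum_type]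
  simp only [Sum.elim_inl, Sum.elim_inr]
  rw [h1 R x, h2 R x']

private theorem P9_bih_mono {K : Type u} [Field K] {N : ℕ} (c : K) (i j k l : Fin (N + 1)) :
    Bih (N := N) (M := N) 2 2 (C c * (X (Sum.inl i) * X (Sum.inl j) * (X (Sum.inr k) * X (Sum.inr l)))) := by
  classical
  intro m hm
  have e : (C c * (X (Sum.inl i) * X (Sum.inl j) * (X (Sum.inr k) * X (Sum.inr l))) :
      MvPolynomial (Fin (N + 1) ⊕ Fin (N + 1)) K) =
      monomial (Finsupp.single (Sum.inl i) 1 + Finsupp.single (Sum.inl j) 1 +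
        (Finsupp.single (Sum.inr k) 1 + Finsupp.single (Sum.inr l) 1)) c := by
    simp only [X, monomial_mul, mul_one, C_mul_monomial]
  rw [e] at hm
  have h1 := support_monomial_subset hm
  rw [Finset.mem_singleton] at h1
  subst h1
  simp only [Finsupp.add_apply, Finsupp.single_apply, Sum.inl.injEq, reduceCtorEq, if_false, add_zero, zero_add,
    Sum.inr.injEq, Finset.sum_add_distrib, Finset.sum_ite_eq, Finset.mem_univ, if_true]
  exact ⟨trivial, trivial⟩

private theorem P9_bih_sum {K : Type u} [Field K] {N : ℕ} {ι : Type*} (s : Finset ι)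
    (h : ι → MvPolynomial (Fin (N + 1) ⊕ Fin (N + 1)) K) (hh : ∀ i ∈ s, Bih (N := N) (M := N) 2 2 (h i)) :
    Bih (N := N) (M := N) 2 2 (∑ i ∈ s, h i) := by
  classical
  intro m hm
  by_contra hc
  have h0 : coeff m (∑ i ∈ s, h i) = 0 := by
    rw [coeff_sum]
    refine Finset.sum_eq_zero fun i hi => ?_
    by_contra hne
    exact hc (hh i hi m (mem_support_iff.2 hne))
  exact mem_support_iff.1 hm h0

theorem exists_lift {K : Type u} [Field K] {N M : ℕ}
    {f : MvPolynomial (Fin (N + 1) ⊕ Fin (N + 1)) K} {g : MvPolynomial (Fin (M + 1) ⊕ Fin (M + 1)) K}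
    (hf : Bih 2 2 f) (hg : Bih 2 2 g) :
    ∃ h : MvPolynomial (Fin (N * M + N + M + 1) ⊕ Fin (N * M + N + M + 1)) K, Bih 2 2 h ∧
      ∀ (R : Type u) [CommRing R] [Algebra K R] (x x' : Fin (N + 1) → R) (y y' : Fin (M + 1) → R),
        aeval (Sum.elim (sg x y) (sg x' y')) h =
          aeval (Sum.elim x x') f * aeval (Sum.elim y y') g := by
  classical
  choose! i j k l hF using fun m (hm : m ∈ f.support) => P9_mono (K := K) (hf m hm)
  choose! i' j' k' l' hG using fun m (hm : m ∈ g.support) => P9_mono (K := K) (hg m hm)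
  refine ⟨∑ m ∈ f.support, ∑ n ∈ g.support, C (coeff m f * coeff n g) *
    (X (Sum.inl (pe N M (i m, i' n))) * X (Sum.inl (pe N M (j m, j' n))) *
      (X (Sum.inr (pe N M (k m, k' n))) * X (Sum.inr (pe N M (l m, l' n))))), ?_, ?_⟩
  · exact P9_bih_sum _ _ fun m _ => P9_bih_sum _ _ fun n _ => P9_bih_mono _ _ _ _ _
  · intro R _ _ x x' y y'
    conv_rhs => rw [f.as_sum, g.as_sum, map_sum, map_sum, Finset.sum_mul_sum]
    rw [map_sum]
    refine Finset.sum_congr rfl fun m hm => ?_
    rw [map_sum]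
    refine Finset.sum_congr rfl fun n hn => ?_
    rw [hF m hm R (coeff m f) x x', hG n hn R (coeff n g) y y']
    simp only [map_mul, aeval_C, aeval_X, Sum.elim_inl, Sum.elim_inr, sg, Equiv.symm_apply_apply]
    ring

end Pool.Agent.Lib.MP_17a322_nt.EA
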