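import Pool.Agent.Lib.MP_17a322_ntEA.Mk
import Pool.Agent.Lib.MP_17a322_ntEA.A1
import Pool.Agent.Lib.MP_17a322_ntEA.A2
import Pool.Agent.Lib.MP_17a322_ntEA.A4
import Pool.Agent.Lib.MP_17a322_ntEA.B6
import Pool.Agent.Lib.MP_17a322_ntEA.C1
import Pool.Agent.Lib.MP_17a322_ntEA.C2
import Pool.Agent.Lib.MP_17a322_ntEA.P5
import Pool.Agent.Lib.MP_17a322_ntEA.P6
import Pool.Agent.Lib.MP_17a322_ntEA.P7
import Pool.Agent.Lib.MP_17a322_ntEA.P8
import Pool.Agent.Lib.MP_17a322_ntEA.P9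

/-!
Elliptic curves and products as abelian varieties in projective space.
-/

set_option autoImplicit false

universe u

namespace Pool.Agent.Lib.MP_17a322_nt.EA

open MvPolynomial
open Pool.Agent.Lib.MP_17a322_nt.VA

section Elliptic

variable {K : Type u} [Field K] {a b : K}

/-- The points of the elliptic curve are the points of the plane cubic. -/
noncomputable def ptE (hΔ : (crv a b).Δ ≠ 0) (L : Type u) [Field L] [Algebra K L] :
    EP a b L ≃ Pt (cubI a b) L :=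
  Equiv.ofBijective ptOf (ptOf_bij hΔ L)

theorem ec_bih (a b : K) (i j : Fin (2 + 1)) : Bih 2 2 (sP a b i j) :=
  bih_of_smul fun R _ _ x y s t => by rw [aeval_sP, aeval_sP, sf_smul]

theorem ec_spec (hΔ : (crv a b).Δ ≠ 0) (L : Type u) [Field L] [Algebra K L] (P Q : EP a b L) :
    ∃ c : L, c ≠ 0 ∧ ∀ i j, aeval (Sum.elim (ptE hΔ L P).1.rep (ptE hΔ L Q).1.rep) (sP a b i j) =
      c * ((ptE hΔ L (P + Q)).1.rep i * (ptE hΔ L (P - Q)).1.rep j) := by
  obtain ⟨c1, h1, e1⟩ := ptOf_rep P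
  obtain ⟨c2, h2, e2⟩ := ptOf_rep Q
  obtain ⟨c3, h3, e3⟩ := ptOf_rep (P + Q)
  obtain ⟨c4, h4, e4⟩ := ptOf_rep (P - Q)
  obtain ⟨c, h, e⟩ := sf_spec hΔ P Q
  refine ⟨c1 ^ 2 * c2 ^ 2 * c * c3⁻¹ * c4⁻¹, ?_, fun i j => ?_⟩
  · exact mul_ne_zero (mul_ne_zero (mul_ne_zero (mul_ne_zero (pow_ne_zero _ h1)
      (pow_ne_zero _ h2)) h) (inv_ne_zero h3)) (inv_ne_zero h4)
  have f1 : (ptE hΔ L P).1.rep = c1 • co P := funext e1
  have f2 : (ptE hΔ L Q).1.rep = c2 • co Q := funext e2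
  rw [f1, f2, aeval_sP, sf_smul, e]
  change _ = _ * ((ptOf (P + Q)).1.rep i * (ptOf (P - Q)).1.rep j)
  rw [e3, e4]
  field_simp

/-- The elliptic curve `y² = x³ + a x + b`, as an abelian variety in the projective plane. -/
noncomputable def ecAV (hΔ : (crv a b).Δ ≠ 0) : AV K 2 :=
  mkAV (cubI a b) (cubI_hom a b) (cubI_gprime a b) (fun L _ _ => EP a b L) (ptE hΔ)
    (fun _ _ _ _ _ _ φ _ _ _ _ hP hQ =>
      (isImg_ptOf φ _ _).2 (co_add φ ((isImg_ptOf φ _ _).1 hP) ((isImg_ptOf φ _ _).1 hQ)))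
    (sP a b) (ec_bih a b) (ec_spec hΔ)

/-- The isomorphism between Mathlib's group of points and the group of the points of `ecAV`. -/
noncomputable def ecE (hΔ : (crv a b).Δ ≠ 0) (L : Type u) [Field L] [Algebra K L] :
    EP a b L ≃+ (ecAV hΔ).Pts L :=
  mkE (cubI a b) (cubI_hom a b) (cubI_gprime a b) (fun L _ _ => EP a b L) (ptE hΔ)
    (fun _ _ _ _ _ _ φ _ _ _ _ hP hQ =>
      (isImg_ptOf φ _ _).2 (co_add φ ((isImg_ptOf φ _ _).1 hP) ((isImg_ptOf φ _ _).1 hQ)))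
    (sP a b) (ec_bih a b) (ec_spec hΔ) L

theorem ecE_x (hΔ : (crv a b).Δ ≠ 0) (L : Type u) [Field L] [Algebra K L] (P : EP a b L) :
    ∃ c : L, c ≠ 0 ∧ ∀ i, (ecAV hΔ).x (ecE hΔ L P) i = c * co P i :=
  ptOf_rep P

end Elliptic

section Product

variable {K : Type u} [Field K] {N M : ℕ} (A : AV K N) (B : AV K M)

/-- The pairs of points are the points of the product. -/
noncomputable def ptP (L : Type u) [Field L] [Algebra K L] :
    A.Pts L × B.Pts L ≃ Pt (pI A.I B.I) L :=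
  Equiv.ofBijective (fun p => sgPt (I := A.I) (J := B.I) A.homog p.1 p.2)
    ⟨fun _ _ h => Prod.ext (sgPt_inj A.homog h).1 (sgPt_inj A.homog h).2, fun r => by
      obtain ⟨p, q, h⟩ := sgPt_surj (I := A.I) (J := B.I) A.homog B.homog r
      exact ⟨(p, q), h⟩⟩

theorem bihA (i j : Fin (N + 1)) : Bih 2 2 (A.S i j) :=
  A.bihomog i j

/-- The forms for the product. -/
noncomputable def prS (k l : Fin (N * M + N + M + 1)) :
    MvPolynomial (Fin (N * M + N + M + 1) ⊕ Fin (N * M + N + M + 1)) K :=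
  (exists_lift (bihA A ((pe N M).symm k).1 ((pe N M).symm l).1)
    (bihA B ((pe N M).symm k).2 ((pe N M).symm l).2)).choose

theorem prS_bih (k l : Fin (N * M + N + M + 1)) : Bih 2 2 (prS A B k l) :=
  (exists_lift (bihA A ((pe N M).symm k).1 ((pe N M).symm l).1)
    (bihA B ((pe N M).symm k).2 ((pe N M).symm l).2)).choose_spec.1

theorem prS_aeval (k l : Fin (N * M + N + M + 1)) {R : Type u} [CommRing R] [Algebra K R]
    (x x' : Fin (N + 1) → R) (y y' : Fin (M + 1) → R) :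
    aeval (Sum.elim (sg x y) (sg x' y')) (prS A B k l) =
      aeval (Sum.elim x x') (A.S ((pe N M).symm k).1 ((pe N M).symm l).1) *
        aeval (Sum.elim y y') (B.S ((pe N M).symm k).2 ((pe N M).symm l).2) :=
  (exists_lift (bihA A ((pe N M).symm k).1 ((pe N M).symm l).1)
    (bihA B ((pe N M).symm k).2 ((pe N M).symm l).2)).choose_spec.2 R x x' y y'

theorem pr_f (L L' : Type u) [Field L] [Algebra K L] [Field L'] [Algebra K L'] (φ : L →ₐ[K] L')
    (P Q : A.Pts L × B.Pts L) (P' Q' : A.Pts L' × B.Pts L')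
    (hP : IsImg φ (ptP A B L P) (ptP A B L' P')) (hQ : IsImg φ (ptP A B L Q) (ptP A B L' Q')) :
    IsImg φ (ptP A B L (P + Q)) (ptP A B L' (P' + Q')) := by
  have h1 := (isImg_sgPt A.homog φ P.1 P.2 P'.1 P'.2).1 hP
  have h2 := (isImg_sgPt A.homog φ Q.1 Q.2 Q'.1 Q'.2).1 hQ
  exact (isImg_sgPt A.homog φ _ _ _ _).2
    ⟨A.functorial L L' φ P.1 Q.1 P'.1 Q'.1 h1.1 h2.1, B.functorial L L' φ P.2 Q.2 P'.2 Q'.2 h1.2 h2.2⟩

theorem pr_spec (L : Type u) [Field L] [Algebra K L] (P Q : A.Pts L × B.Pts L) :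
    ∃ c : L, c ≠ 0 ∧ ∀ i j, aeval (Sum.elim (ptP A B L P).1.rep (ptP A B L Q).1.rep) (prS A B i j) =
      c * ((ptP A B L (P + Q)).1.rep i * (ptP A B L (P - Q)).1.rep j) := by
  obtain ⟨c1, h1, e1⟩ := sgPt_rep (I := A.I) (J := B.I) A.homog P.1 P.2
  obtain ⟨c2, h2, e2⟩ := sgPt_rep (I := A.I) (J := B.I) A.homog Q.1 Q.2
  obtain ⟨c3, h3, e3⟩ := sgPt_rep (I := A.I) (J := B.I) A.homog (P + Q).1 (P + Q).2
  obtain ⟨c4, h4, e4⟩ := sgPt_rep (I := A.I) (J := B.I) A.homog (P - Q).1 (P - Q).2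
  obtain ⟨c, h, e⟩ := A.spec L P.1 Q.1
  obtain ⟨d, g, f⟩ := B.spec L P.2 Q.2
  refine ⟨c1 ^ 2 * c2 ^ 2 * c * d * c3⁻¹ * c4⁻¹, ?_, fun i j => ?_⟩
  · exact mul_ne_zero (mul_ne_zero (mul_ne_zero (mul_ne_zero (mul_ne_zero (pow_ne_zero _ h1)
      (pow_ne_zero _ h2)) h) g) (inv_ne_zero h3)) (inv_ne_zero h4)
  have f1 : (ptP A B L P).1.rep = c1 • sg P.1.1.rep P.2.1.rep := funext e1
  have f2 : (ptP A B L Q).1.rep = c2 • sg Q.1.1.rep Q.2.1.rep := funext e2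
  rw [f1, f2, bih_smul (prS_bih A B i j), prS_aeval, e, f]
  change _ = _ * ((sgPt (I := A.I) (J := B.I) A.homog (P + Q).1 (P + Q).2).1.rep i *
    (sgPt (I := A.I) (J := B.I) A.homog (P - Q).1 (P - Q).2).1.rep j)
  rw [e3, e4]
  simp only [sg]
  change _ = c1 ^ 2 * c2 ^ 2 * c * d * c3⁻¹ * c4⁻¹ *
    (c3 * (A.x (P.1 + Q.1) ((pe N M).symm i).1 * B.x (P.2 + Q.2) ((pe N M).symm i).2) *
      (c4 * (A.x (P.1 - Q.1) ((pe N M).symm j).1 * B.x (P.2 - Q.2) ((pe N M).symm j).2)))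
  change c1 ^ 2 * c2 ^ 2 * (c * (A.x (P.1 + Q.1) ((pe N M).symm i).1 *
    A.x (P.1 - Q.1) ((pe N M).symm j).1) * (d * (B.x (P.2 + Q.2) ((pe N M).symm i).2 *
    B.x (P.2 - Q.2) ((pe N M).symm j).2))) = _
  field_simp

/-- The product of two abelian varieties, in the Segre embedding. -/
noncomputable def prodAV : AV K (N * M + N + M) :=
  mkAV (pI A.I B.I) (pI_hom A.homog B.homog) (pI_gprime A.prime B.prime)
    (fun L _ _ => A.Pts L × B.Pts L) (ptP A B) (pr_f A B) (prS A B) (prS_bih A B) (pr_spec A B)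

/-- The isomorphism between the pairs of points and the points of the product. -/
noncomputable def prE (L : Type u) [Field L] [Algebra K L] :
    A.Pts L × B.Pts L ≃+ (prodAV A B).Pts L :=
  mkE (pI A.I B.I) (pI_hom A.homog B.homog) (pI_gprime A.prime B.prime)
    (fun L _ _ => A.Pts L × B.Pts L) (ptP A B) (pr_f A B) (prS A B) (prS_bih A B) (pr_spec A B) L

theorem prE_x (L : Type u) [Field L] [Algebra K L] (P : A.Pts L × B.Pts L) :
    ∃ c : L, c ≠ 0 ∧ ∀ k, (prodAV A B).x (prE A B L P) k = c * sg (A.x P.1) (B.x P.2) k :=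
  sgPt_rep (I := A.I) (J := B.I) A.homog P.1 P.2

end Product

end Pool.Agent.Lib.MP_17a322_nt.EA
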